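import Pool.Agent.W97.MT.Defs

/-!
The statements of the independent parts for level 15.
-/

set_option autoImplicit false

open UpperHalfPlane MatrixGroups CongruenceSubgroup Filter Topology

namespace Pool.Agent.N974.MF

open Pool.Agent.W97.MT (affCount ap)

/-- The curve `y² + xy + y = x³ + x² - 10x - 10` (the modular curve `X_0(15)`). -/
def E15 : WeierstrassCurve ℤ := ⟨1, 1, 1, -10, -10⟩

/-- TORS -/
def S_TORS : Prop := ∀ L : PeriodPair, L.g₂ = 481 / 12 → L.g₃ = 4879 / 216 →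
  ∀ u : ℂ, u ∉ L.lattice →
    (L.weierstrassP u = 101 / 12 → 2 * u ∉ L.lattice ∧ L.weierstrassP (2 * u) = 41 / 12 ∧
      4 * u ∈ L.lattice) ∧
    (L.weierstrassP u = -19 / 12 → 2 * u ∉ L.lattice ∧ L.weierstrassP (2 * u) = 41 / 12 ∧
      4 * u ∈ L.lattice) ∧
    (L.weierstrassP u = -7 / 12 → 2 * u ∈ L.lattice) ∧
    (L.weierstrassP u = 41 / 12 → 2 * u ∈ L.lattice)

/-- LAT -/
def S_LAT : Prop := ∃ (L : PeriodPair) (Op Om : ℝ), 0 < Op ∧ 0 < Om ∧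
  L.g₂ = 481 / 12 ∧ L.g₃ = 4879 / 216 ∧
  ∀ w : ℂ, w ∈ L.lattice ↔ ∃ a b : ℤ, w = a * Op + b * Om * Complex.I

/-- CP: the constant principle on `X_0(15)` -/
def S_CP : Prop := ∀ g : ℂ → ℂ, DifferentiableOn ℂ g {z : ℂ | 0 < z.im} →
  (∀ a b c d : ℤ, a * d - b * (15 * c) = 1 → ∀ z : ℂ, 0 < z.im →
    g ((a * z + b) / (15 * c * z + d)) = g z) →
  (∃ B T : ℝ, ∀ z : ℂ, T < z.im → ‖g z‖ ≤ B) →
  (∃ B T : ℝ, 0 ≤ T ∧ ∀ z : ℂ, T < z.im → ‖g (-1 / (15 * z))‖ ≤ B) →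
  (∃ B T : ℝ, 0 ≤ T ∧ ∀ z : ℂ, T < z.im → ‖g ((5 * z - 2) / (15 * z - 5))‖ ≤ B) →
  (∃ B T : ℝ, 0 ≤ T ∧ ∀ z : ℂ, T < z.im → ‖g ((3 * z + 1) / (15 * z + 6))‖ ≤ B) →
  ∃ c : ℂ, ∀ z : ℂ, 0 < z.im → g z = c

/-- HASSE: the coefficient of `q^p` modulo `p` -/
def S_HASSE : Prop := ∀ (p : ℕ) [Fact p.Prime], p ≠ 2 → ∀ φ ξ σ : PowerSeries (ZMod p),
  PowerSeries.constantCoeff ξ = 1 → PowerSeries.constantCoeff σ = -2 →
  PowerSeries.X * PowerSeries.derivative (ZMod p) ξ - 2 * ξ = φ * σ →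
  σ ^ 2 = 4 * ξ ^ 3 - 7 * PowerSeries.X ^ 2 * ξ ^ 2 - 36 * PowerSeries.X ^ 4 * ξ →
  PowerSeries.coeff (p - 1) φ = (ap E15 p : ZMod p)

/-- FOUR: four divides the number of points -/
def S_FOUR : Prop := ∀ (p : ℕ), p.Prime → p ≠ 2 → p ≠ 3 → p ≠ 5 → 4 ∣ affCount E15 p + 1

/-- MIN -/
def S_MIN : Prop := affCount E15 2 = 3 ∧ affCount E15 3 = 4 ∧ affCount E15 5 = 4 ∧
  ∀ p : ℕ, p.Prime → affCount E15 p ≤ 2 * p

end Pool.Agent.N974.MF
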