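import Mathlib

/-!
The structure of the odd part of the integral modular symbol of `X_0(15)`.
-/

set_option autoImplicit false

namespace Pool.Agent.N974.MF

/-- the odd part of the integral symbol of `X_0(15)`, with the action of the group -/
structure Symb15 (s : ℚ → ℤ) (a : ℕ → ℤ) : Prop where
  per : ∀ x, s (x + 1) = s x
  neg : ∀ x, s (-x) = -s x
  hecke : ∀ q : ℕ, q.Prime → ¬ q ∣ 15 → ∀ x,
    a q * s x = s (q * x) + ∑ b ∈ Finset.range q, s ((x + b) / q)
  heckeU : ∀ q : ℕ, q.Prime → q ∣ 15 → ∀ x,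
    a q * s x = ∑ b ∈ Finset.range q, s ((x + b) / q)
  aff : ∀ {A B C D : ℤ}, A * D - B * (15 * C) = 1 → ∀ r : ℚ, (15 : ℚ) * C * r + D ≠ 0 →
    s ((A * r + B) / (15 * C * r + D)) = s r + s ((B : ℚ) / D)
  aff_inf : ∀ {A B C D : ℤ}, A * D - B * (15 * C) = 1 → C ≠ 0 →
    s ((A : ℚ) / (15 * C)) = s ((B : ℚ) / D)
  w15 : ∀ r : ℚ, r ≠ 0 → s (-1 / (15 * r)) = -s r
  w5 : ∀ r : ℚ, 15 * r - 5 ≠ 0 → s ((5 * r - 2) / (15 * r - 5)) = s (1 / 3) - s r
  even : ∀ r : ℚ, ¬ (3 : ℤ) ∣ r.den → ¬ (5 : ℤ) ∣ r.den → Even (s r)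
  odd3 : ∀ r : ℚ, (3 : ℤ) ∣ r.den → ¬ (5 : ℤ) ∣ r.den → Odd (s r)
  odd5 : ∀ r : ℚ, ¬ (3 : ℤ) ∣ r.den → (5 : ℤ) ∣ r.den → Odd (s r)
  even15 : ∀ r : ℚ, (3 : ℤ) ∣ r.den → (5 : ℤ) ∣ r.den → Even (s r)
  a2 : a 2 = -1
  a3 : a 3 = -1
  a5 : a 5 = 1
  a7 : a 7 = 0
  a11 : a 11 = -4
  a13 : a 13 = -2

namespace Symb15

variable {s : ℚ → ℤ} {a : ℕ → ℤ} (h : Symb15 s a)
include h

theorem s0 : s 0 = 0 := by
  have := h.neg 0
  rw [neg_zero] at this
  omega

/-- the cocycle relation for coordinates -/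
theorem aff' {A B C D : ℤ} (hdet : A * D - B * (15 * C) = 1) {x c : ℤ} (hc : c ≠ 0)
    (hK : 15 * C * x + D * c ≠ 0) :
    s (((A * x + B * c : ℤ) : ℚ) / ((15 * C * x + D * c : ℤ) : ℚ)) =
      s ((x : ℚ) / c) + s ((B : ℚ) / D) := by
  have hc' : (c : ℚ) ≠ 0 := by exact_mod_cast hc
  have hK' : (15 * (C : ℚ) * x + D * c) ≠ 0 := by exact_mod_cast hK
  have e0 : (15 : ℚ) * C * ((x : ℚ) / c) + D = (15 * (C : ℚ) * x + D * c) / c := by
    field_simp
  have h1 := h.aff hdet ((x : ℚ) / c) (by rw [e0]; exact div_ne_zero hK' hc')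
  rw [← h1, e0]
  congr 1
  push_cast
  field_simp

theorem s12 : s (1 / 2) = 0 := by
  have h1 := h.per (-(1 / 2))
  have h2 := h.neg (1 / 2)
  norm_num at h1 h2
  omega

theorem s14 : s (1 / 4) = 2 * s (1 / 3) := by
  have h1 := h.aff (A := 11) (B := -3) (C := 1) (D := -4) (by norm_num) (1 / 3) (by norm_num)
  have h2 := h.per (-(1 / 3))
  have h3 := h.neg (1 / 3)
  have h4 := h.per (-(1 / 4))
  have h5 := h.neg (1 / 4)
  norm_num at h1 h2 h3 h4 h5
  omega

theorem s411 : s (4 / 11) = 2 * s (1 / 3) := by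
  have h1 := h.aff (A := 11) (B := 4) (C := 2) (D := 11) (by norm_num) (-(1 / 3)) (by norm_num)
  have h3 := h.neg (1 / 3)
  norm_num at h1 h3
  omega

/-- the Fricke involution on the cusps prime to `15` -/
theorem inv {M y b d : ℤ} (hy : 15 * b * d + 1 = M * y) : s ((b : ℚ) / M) = s ((d : ℚ) / M) := by
  have hM : M ≠ 0 := by
    rintro rfl
    have : (15 : ℤ) ∣ 1 := ⟨-(b * d), by linarith⟩
    norm_num at this
  have hy0 : y ≠ 0 := by
    rintro rfl
    have : (15 : ℤ) ∣ 1 := ⟨-(b * d), by linarith⟩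
    norm_num at this
  -- inverse
  have key : ∀ {d' b' M' y' : ℤ}, 15 * b' * d' + 1 = M' * y' → M' ≠ 0 → y' ≠ 0 →
      s ((d' : ℚ) / y') = s ((d' : ℚ) / M') := by
    intro d' b' M' y' h' hM' hy'
    have hM0 : (M' : ℚ) ≠ 0 := by exact_mod_cast hM'
    have hy1 : (y' : ℚ) ≠ 0 := by exact_mod_cast hy'
    have hq : (15 : ℚ) * b' * d' + 1 = M' * y' := by exact_mod_cast h'
    have h1 := h.aff (A := y') (B := d') (C := b') (D := M') (by linarith) (-(d' : ℚ) / y') (by
      intro h0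
      have h2 : (15 : ℚ) * b' * (-(d' : ℚ) / y') + M' = 1 / y' := by
        field_simp
        linarith
      rw [h2] at h0
      exact one_div_ne_zero hy1 h0)
    have e1 : (y' : ℚ) * (-(d' : ℚ) / y') + d' = 0 := by
      field_simp
      ring
    rw [e1, zero_div, h.s0, neg_div, h.neg] at h1
    omega
  have hb : s ((b : ℚ) / M) = s ((d : ℚ) / y) := by
    rcases eq_or_ne d 0 with rfl | hd
    · have h1 : M = 1 ∨ M = -1 := by
        have : M ∣ 1 := ⟨y, by linarith⟩
        rcases Int.isUnit_iff.1 (isUnit_of_dvd_one this) with h2 | h2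
        · exact Or.inl h2
        · exact Or.inr h2
      have hint : ∀ m : ℤ, s (m : ℚ) = 0 := by
        intro m
        induction m using Int.induction_on with
        | zero => simpa using h.s0
        | succ i ih =>
          have := h.per (i : ℚ)
          push_cast at ih ⊢
          rw [this, ih]
        | pred i ih =>
          have := h.per (-(i : ℚ) - 1)
          push_cast at ih ⊢
          rw [← this, ← ih]
          congr 1
          ring
      rcases h1 with rfl | rfl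
      · simp [h.s0, hint]
      · have h3 := hint (-b)
        have e : ((b : ℚ) / ((-1 : ℤ) : ℚ)) = ((-b : ℤ) : ℚ) := by push_cast; ring
        rw [e, h3, Int.cast_zero, zero_div, h.s0]
    · have h1 := h.aff_inf (A := y) (B := b) (C := d) (D := M) (by linarith) hd
      have h2 := h.w15 (-(d : ℚ) / y) (by
        have : (d : ℚ) ≠ 0 := by exact_mod_cast hd
        have : (y : ℚ) ≠ 0 := by exact_mod_cast hy0
        rw [neg_div]
        exact neg_ne_zero.2 (div_ne_zero (by assumption) this))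
      have hd0 : (d : ℚ) ≠ 0 := by exact_mod_cast hd
      have hy1 : (y : ℚ) ≠ 0 := by exact_mod_cast hy0
      have e1 : (-1 : ℚ) / (15 * (-(d : ℚ) / y)) = (y : ℚ) / (15 * d) := by
        field_simp
      rw [e1, h1, neg_div, h.neg] at h2
      omega
  rw [hb]
  exact key hy hM hy0

theorem s17 : s (1 / 7) = 0 := by
  have h1 := h.inv (M := 7) (y := 13) (b := 1) (d := 6) (by norm_num)
  have h2 := h.per (-(1 / 7))
  have h3 := h.neg (1 / 7)
  norm_num at h1 h2 h3
  omega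

end Symb15

end Pool.Agent.N974.MF
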