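import Pool.Agent.N974.MF.Lval2
import Pool.Agent.Y687.K4.LfinT
import Pool.Agent.Y687.K2.RankForm

/-!
The `L`-function of the quadratic twists of `X_0(15)` by odd discriminants.
-/

set_option autoImplicit false
set_option linter.style.haveILetI false

open Complex Filter Topology Set UpperHalfPlane MatrixGroups CongruenceSubgroup ZMod

namespace Pool.Agent.N974.MF

open Pool.Agent.W97.MT (ap affCount)
open Pool.Agent.H491R3.J (OS)
open Pool.Agent.Y687 (cnt cnt_eq fac p_cpow hasProd_transfer nrm ne_zero_of_norm sum_rrC rr mem_rr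
  jacD cnt_twistD SS)

theorem cnt_E15 (l : ℕ) (hl : l.Prime) (h2 : l ≠ 2) (h3 : l ≠ 3) :
    (l : ℤ) - cnt (-12987) (-263466) l = ap E15 l := by
  unfold cnt ap
  rw [Inst.points_card l hl h2 h3]

/-- the primes of bad reduction of the model -/
theorem good_iffD {D : ℤ} {p : ℕ} (hp : p.Prime) :
    ((p : ℤ) ∣ 2 * (4 * (-12987 * D ^ 2) ^ 3 + 27 * (-263466 * D ^ 3) ^ 2)) ↔
      p = 2 ∨ p = 3 ∨ p = 5 ∨ p ∣ D.natAbs := by
  have e : 2 * (4 * (-12987 * D ^ 2) ^ 3 + 27 * (-263466 * D ^ 3) ^ 2)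
      = -(((2 ^ 9 * 3 ^ 16 * 5 ^ 4) * D.natAbs ^ 6 : ℕ) : ℤ) := by
    push_cast
    have h1 : |D| ^ 6 = D ^ 6 := by
      rw [show (6 : ℕ) = 2 * 3 by norm_num, pow_mul, pow_mul, sq_abs]
    rw [h1]
    ring
  rw [e, dvd_neg, Int.natCast_dvd_natCast, hp.dvd_mul, hp.dvd_mul, hp.dvd_mul]
  constructor
  · rintro ((((h | h) | h)) | h)
    · exact Or.inl ((Nat.prime_dvd_prime_iff_eq hp Nat.prime_two).1 (hp.dvd_of_dvd_pow h))
    · exact Or.inr (Or.inl ((Nat.prime_dvd_prime_iff_eq hp Nat.prime_three).1 (hp.dvd_of_dvd_pow h)))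
    · exact Or.inr (Or.inr (Or.inl ((Nat.prime_dvd_prime_iff_eq hp (by norm_num)).1
        (hp.dvd_of_dvd_pow h))))
    · exact Or.inr (Or.inr (Or.inr (hp.dvd_of_dvd_pow h)))
  · rintro (rfl | rfl | rfl | h)
    · exact Or.inl (Or.inl (Or.inl (dvd_pow_self 2 (by norm_num))))
    · exact Or.inl (Or.inl (Or.inr (dvd_pow_self 3 (by norm_num))))
    · exact Or.inl (Or.inr (dvd_pow_self 5 (by norm_num)))
    · exact Or.inr (dvd_pow h (by norm_num))

/-- factors at `2`, `3`, `5` -/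
noncomputable def bf (x : ℤ) (p : ℕ) (s : ℂ) : ℂ :=
  1 - (ap E15 p : ℂ) * (x : ℂ) * (p : ℂ) ^ (-s) +
    (if p ∣ 15 then 0 else (p : ℂ)) * (x : ℂ) ^ 2 * (p : ℂ) ^ (-2 * s)

theorem bf_diff (x : ℤ) {p : ℕ} (hp : p ≠ 0) : Differentiable ℂ (bf x p) := by
  have hp' : (p : ℂ) ≠ 0 := by exact_mod_cast hp
  unfold bf
  refine Differentiable.add (Differentiable.sub (differentiable_const _) ?_) ?_
  · exact (Differentiable.const_cpow (by fun_prop) (Or.inl hp')).const_mul _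
  · exact (Differentiable.const_cpow (by fun_prop) (Or.inl hp')).const_mul _

theorem ap2 : ap E15 2 = -1 := by
  unfold ap
  rw [FOUR.s_min.1]; norm_num

theorem ap3 : ap E15 3 = -1 := by
  unfold ap
  rw [FOUR.s_min.2.1]; norm_num

theorem ap5 : ap E15 5 = 1 := by
  unfold ap
  rw [FOUR.s_min.2.2.1]; norm_num

theorem bf3_ne {x : ℤ} (hx : x = 1 ∨ x = -1) : bf x 3 1 ≠ 0 := by
  unfold bf
  rw [ap3, if_pos (by norm_num), Complex.cpow_neg_one]
  rcases hx with rfl | rfl <;> norm_num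

theorem bf5_ne {x : ℤ} (hx : x = 1 ∨ x = -1) : bf x 5 1 ≠ 0 := by
  unfold bf
  rw [ap5, if_pos (by norm_num), Complex.cpow_neg_one]
  rcases hx with rfl | rfl <;> norm_num

theorem bf2_ne {x : ℤ} (hx : x = 1 ∨ x = -1) : bf x 2 1 ≠ 0 := by
  unfold bf
  rw [ap2, if_neg (by norm_num), Complex.cpow_neg_one]
  have e : ((2 : ℕ) : ℂ) ^ (-2 * (1 : ℂ)) = (((2 : ℕ) : ℂ) ^ 2)⁻¹ := by
    rw [show (-2 * (1 : ℂ)) = ((-2 : ℤ) : ℂ) by norm_num, Complex.cpow_intCast]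
    norm_num
  rw [e]
  rcases hx with rfl | rfl <;> norm_num

theorem bf_X (x : ℤ) (p : ℕ) (s : ℂ) : bf x p s = 1 - (ap E15 p : ℂ) * (x : ℂ) * (p : ℂ) ^ (-s) +
    (if p ∣ 15 then 0 else (p : ℂ)) * (x : ℂ) ^ 2 * ((p : ℂ) ^ (-s)) ^ 2 := by
  unfold bf
  have : (p : ℂ) ^ (-2 * s) = ((p : ℂ) ^ (-s)) ^ 2 := by
    rw [← Complex.cpow_nat_mul]
    congr 1
    push_cast
    ring
  rw [this]

theorem bf3_ne' {x : ℤ} (hx : x = 1 ∨ x = -1) {s : ℂ} (hs : 1 < s.re) : bf x 3 s ≠ 0 := by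
  rw [bf_X, ap3, if_pos (by norm_num)]
  have h := nrm (p := 3) (by norm_num) hs
  set X : ℂ := ((3 : ℕ) : ℂ) ^ (-s) with hX
  have e : 1 - ((-1 : ℤ) : ℂ) * (x : ℂ) * X + 0 * (x : ℂ) ^ 2 * X ^ 2 = 1 + (x : ℂ) * X := by
    push_cast; ring
  rw [e]
  apply ne_zero_of_norm
  have hx' : ‖(x : ℂ)‖ = 1 := by rcases hx with rfl | rfl <;> simp
  rw [norm_mul, hx', one_mul]
  push_cast at h
  linarith

theorem bf5_ne' {x : ℤ} (hx : x = 1 ∨ x = -1) {s : ℂ} (hs : 1 < s.re) : bf x 5 s ≠ 0 := by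
  rw [bf_X, ap5, if_pos (by norm_num)]
  have h := nrm (p := 5) (by norm_num) hs
  set X : ℂ := ((5 : ℕ) : ℂ) ^ (-s) with hX
  have e : 1 - ((1 : ℤ) : ℂ) * (x : ℂ) * X + 0 * (x : ℂ) ^ 2 * X ^ 2 = 1 + -((x : ℂ) * X) := by
    push_cast; ring
  rw [e]
  apply ne_zero_of_norm
  have hx' : ‖(x : ℂ)‖ = 1 := by rcases hx with rfl | rfl <;> simp
  rw [norm_neg, norm_mul, hx', one_mul]
  push_cast at h
  linarith

theorem bf2_ne' {x : ℤ} (hx : x = 1 ∨ x = -1) {s : ℂ} (hs : 1 < s.re) : bf x 2 s ≠ 0 := by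
  rw [bf_X, ap2, if_neg (by norm_num)]
  have h := nrm (p := 2) (by norm_num) hs
  set X : ℂ := ((2 : ℕ) : ℂ) ^ (-s) with hX
  have hx2 : (x : ℂ) ^ 2 = 1 := by rcases hx with rfl | rfl <;> norm_num
  have e : 1 - ((-1 : ℤ) : ℂ) * (x : ℂ) * X + ((2 : ℕ) : ℂ) * (x : ℂ) ^ 2 * X ^ 2 =
      1 + ((x : ℂ) * X + 2 * X ^ 2) := by
    rw [hx2]; push_cast; ring
  rw [e]
  apply ne_zero_of_norm
  have hx' : ‖(x : ℂ)‖ = 1 := by rcases hx with rfl | rfl <;> simp
  refine lt_of_le_of_lt (norm_add_le _ _) ?_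
  rw [norm_mul, norm_mul, norm_pow, hx']
  have h2 : ‖(2 : ℂ)‖ = 2 := by simp
  rw [h2]
  push_cast at h
  nlinarith [norm_nonneg X]

/-- the `L`-function of the quadratic twist by `D` -/
theorem exists_fD (hlat : S_LAT) (D : ℤ) (hsq : Squarefree D) (h1 : 1 < D.natAbs) (h4 : D % 4 = 1)
    (h15 : Nat.Coprime D.natAbs 15) :
    ∃ (f : ℂ → ℂ) (g1 : ℂ), Differentiable ℂ f ∧
      (∀ s : ℂ, (3 : ℝ) / 2 < s.re →
        HasProd (fun p : {p : ℕ // p.Prime ∧
            ¬ ((p : ℤ) ∣ 2 * (4 * (-12987 * D ^ 2) ^ 3 + 27 * (-263466 * D ^ 3) ^ 2))} =>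
          fac (-12987 * D ^ 2) (-263466 * D ^ 3) s p) (f s)) ∧
      (g1 ≠ 0 → f 1 ≠ 0) ∧
      ∃ τ : ℂ, τ * g1 = ∑ a ∈ rr D.natAbs, ((jacobiSym (a : ℤ) D.natAbs : ℤ) : ℂ) *
        II ((a : ℚ) / D.natAbs) := by
  classical
  obtain ⟨M, hM⟩ : ∃ M : ℕ, M = D.natAbs := ⟨_, rfl⟩
  have hsqM : Squarefree M := by rw [hM]; exact Int.squarefree_natAbs.2 hsq
  have hodd : Odd M := by
    rw [hM]
    refine Nat.odd_iff.2 ?_
    omega
  simp only [← hM] at h1 h15 ⊢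
  have hM0 : M ≠ 0 := by omega
  haveI : NeZero M := ⟨hM0⟩
  set d : OS := ⟨M, hodd, hsqM, h1⟩ with hd
  obtain ⟨g, hg1, hg2, hg3⟩ := exists_L hlat (q := M) h15 (H491R3.J.chi d) (H491R3.J.chi_primitive d)
  have hchi : ∀ m : ℕ, H491R3.J.chi d (m : ZMod M) = ((jacobiSym (m : ℤ) M : ℤ) : ℂ) :=
    H491R3.J.chi_natCast d
  have hpm : ∀ m : ℕ, Nat.Coprime m M → jacobiSym (m : ℤ) M = 1 ∨ jacobiSym (m : ℤ) M = -1 := by
    intro m hm
    refine jacobiSym.eq_one_or_neg_one ?_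
    rw [Int.gcd_natCast_natCast]
    exact hm
  have hz : ∀ p : ℕ, p.Prime → p ∣ M → jacobiSym (p : ℤ) M = 0 := by
    intro p hpp hpM
    rw [jacobiSym.eq_zero_iff_not_coprime, Int.gcd_natCast_natCast]
    intro hg
    have := Nat.dvd_gcd (dvd_refl p) hpM
    rw [hg] at this
    exact hpp.one_lt.ne' (Nat.dvd_one.1 this)
  have hc2 := hpm 2 (Nat.coprime_two_left.2 hodd)
  have hc5 := hpm 5 (Nat.Coprime.coprime_dvd_right (by norm_num) h15).symm
  have hc3 := hpm 3 (Nat.Coprime.coprime_dvd_right (by norm_num) h15).symm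
  set x2 := jacobiSym ((2 : ℕ) : ℤ) M with hx2
  set x3 := jacobiSym ((3 : ℕ) : ℤ) M with hx3
  set x5 := jacobiSym ((5 : ℕ) : ℤ) M with hx5
  refine ⟨fun s => g s * (bf x2 2 s * (bf x3 3 s * bf x5 5 s)), g 1,
    hg1.mul ((bf_diff x2 (by norm_num)).mul ((bf_diff x3 (by norm_num)).mul
      (bf_diff x5 (by norm_num)))), ?_, ?_, ?_⟩
  · intro s hs
    have hs' : 3 / 2 < s.re := hs
    have e1 := hg2 s hs'
    -- the finite product
    set p2 : Nat.Primes := ⟨2, Nat.prime_two⟩ with hp2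
    set p3 : Nat.Primes := ⟨3, Nat.prime_three⟩ with hp3
    set p5 : Nat.Primes := ⟨5, by norm_num⟩ with hp5
    have n23 : p2 ≠ p3 := by rw [hp2, hp3]; intro h; have := congrArg Subtype.val h; simp at this
    have n25 : p2 ≠ p5 := by rw [hp2, hp5]; intro h; have := congrArg Subtype.val h; simp at this
    have n35 : p3 ≠ p5 := by rw [hp3, hp5]; intro h; have := congrArg Subtype.val h; simp at this
    set k : Nat.Primes → ℂ := fun p => if p ∈ ({p2, p3, p5} : Finset Nat.Primes) then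
      bf (jacobiSym ((p : ℕ) : ℤ) M) p s else 1 with hk
    have e2 : HasProd k (∏ p ∈ ({p2, p3, p5} : Finset Nat.Primes), k p) :=
      hasProd_prod_of_ne_finset_one (fun p hp => if_neg hp)
    have e3 : ∏ p ∈ ({p2, p3, p5} : Finset Nat.Primes), k p =
        bf x2 2 s * (bf x3 3 s * bf x5 5 s) := by
      rw [Finset.prod_insert (by simp [n23, n25]), Finset.prod_insert (by simp [n35]),
        Finset.prod_singleton]
      simp only [hk]
      rw [if_pos (by simp), if_pos (by simp), if_pos (by simp)]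
    rw [e3] at e2
    have e4 := e1.mul e2
    refine hasProd_transfer _ _ _ ?_
    refine (congrArg (fun g => HasProd g _) (funext fun p => ?_)).mp e4
    have hpp : (p : ℕ).Prime := p.2
    have hF : (1 - (ap E15 p : ℂ) * H491R3.J.chi d ((p : ℕ) : ZMod M) * ((p : ℕ) : ℂ) ^ (-s) +
          (if (p : ℕ) ∣ 15 then 0 else ((p : ℕ) : ℂ)) * (H491R3.J.chi d ((p : ℕ) : ZMod M)) ^ 2 *
            ((p : ℕ) : ℂ) ^ (-2 * s)) = bf (jacobiSym ((p : ℕ) : ℤ) M) p s := by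
      unfold bf
      rw [hchi]
    rw [hF]
    have hs1 : 1 < s.re := by linarith
    by_cases hin : p ∈ ({p2, p3, p5} : Finset Nat.Primes)
    · have hk1 : k p = bf (jacobiSym ((p : ℕ) : ℤ) M) p s := if_pos hin
      rw [hk1]
      simp only [Finset.mem_insert, Finset.mem_singleton] at hin
      have hbad : ((p : ℕ) : ℤ) ∣ 2 * (4 * (-12987 * D ^ 2) ^ 3 + 27 * (-263466 * D ^ 3) ^ 2) := by
        rw [good_iffD hpp]
        rcases hin with rfl | rfl | rfl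
        · exact Or.inl rfl
        · exact Or.inr (Or.inl rfl)
        · exact Or.inr (Or.inr (Or.inl rfl))
      rw [if_neg (not_not.2 hbad)]
      refine inv_mul_cancel₀ ?_
      rcases hin with rfl | rfl | rfl
      · exact bf2_ne' hc2 hs1
      · exact bf3_ne' hc3 hs1
      · exact bf5_ne' hc5 hs1
    · have hk1 : k p = 1 := if_neg hin
      rw [hk1, mul_one]
      simp only [Finset.mem_insert, Finset.mem_singleton, not_or] at hin
      have q2 : (p : ℕ) ≠ 2 := fun h => hin.1 (Subtype.ext h)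
      have q3 : (p : ℕ) ≠ 3 := fun h => hin.2.1 (Subtype.ext h)
      have q5 : (p : ℕ) ≠ 5 := fun h => hin.2.2 (Subtype.ext h)
      by_cases hpM : (p : ℕ) ∣ M
      · have hbad : ((p : ℕ) : ℤ) ∣ 2 * (4 * (-12987 * D ^ 2) ^ 3 + 27 * (-263466 * D ^ 3) ^ 2) := by
          rw [good_iffD hpp, ← hM]
          exact Or.inr (Or.inr (Or.inr hpM))
        rw [if_neg (not_not.2 hbad), hz p hpp hpM]
        unfold bf
        simp
      · have hgood : ¬ ((p : ℕ) : ℤ) ∣ 2 * (4 * (-12987 * D ^ 2) ^ 3 +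
            27 * (-263466 * D ^ 3) ^ 2) := by
          rw [good_iffD hpp, ← hM]
          push Not
          exact ⟨q2, q3, q5, hpM⟩
        rw [if_pos hgood]
        haveI : Fact (p : ℕ).Prime := ⟨hpp⟩
        have hx := hpm p ((Nat.Prime.coprime_iff_not_dvd hpp).2 hpM)
        have hx2 : ((jacobiSym ((p : ℕ) : ℤ) M : ℤ) : ℂ) ^ 2 = 1 := by
          rcases hx with h | h <;> rw [h] <;> norm_num
        have h15' : ¬ (p : ℕ) ∣ 15 := by
          intro h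
          have h1 : (p : ℕ) ∣ 3 * 5 := by simpa using h
          rcases (Nat.Prime.dvd_mul hpp).1 h1 with h2 | h2
          · exact q3 ((Nat.prime_dvd_prime_iff_eq hpp Nat.prime_three).1 h2)
          · exact q5 ((Nat.prime_dvd_prime_iff_eq hpp (by norm_num)).1 h2)
        unfold bf fac
        congr 1
        rw [hx2, if_neg h15', mul_one, p_cpow hpp.ne_zero]
        have h5 := cnt_twistD (-12987) (-263466) h4 p q2 (by rw [← hM]; exact hpM)
        rw [cnt_E15 p hpp q2 q3, ← hM] at h5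
        have h6 : (((p : ℕ) : ℤ) - (Nat.card {q : ZMod p × ZMod p //
                  q.2 ^ 2 = q.1 ^ 3 + ((-12987 * D ^ 2 : ℤ) : ZMod p) * q.1 +
                    ((-263466 * D ^ 3 : ℤ) : ZMod p)} : ℤ)) =
                jacobiSym ((p : ℕ) : ℤ) M * ap E15 p := h5
        rw [h6]
        push_cast
        ring
  · intro hg
    exact mul_ne_zero hg (mul_ne_zero (bf2_ne hc2) (mul_ne_zero (bf3_ne hc3) (bf5_ne hc5)))
  · refine ⟨gaussSum (H491R3.J.chi d)⁻¹ (stdAddChar (N := M)), ?_⟩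
    have hinv : (H491R3.J.chi d)⁻¹ = H491R3.J.chi d := H491R3.J.chi_inv d
    rw [hg3, hinv, sum_rrC]
    refine Finset.sum_congr rfl fun u _ => ?_
    rw [← hchi, ZMod.natCast_zmod_val]

/-- the central value does not vanish if the sum of the symbols does not -/
theorem exists_f_neD (hlat : S_LAT) (D : ℤ) (hsq : Squarefree D) (h1 : 1 < D.natAbs) (h4 : D % 4 = 1)
    (h15 : Nat.Coprime D.natAbs 15) {sp sm : ℚ → ℤ} {Op Om : ℝ} (hOp : 0 < Op) (hOm : 0 < Om)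
    (hs : ∀ r : ℚ, (4 : ℂ) * II r = sp r * Op + 2 * sm r * Om * Complex.I)
    (hne : SS sp D.natAbs D.natAbs ≠ 0 ∨ SS sm D.natAbs D.natAbs ≠ 0) :
    ∃ f : ℂ → ℂ, Differentiable ℂ f ∧
      (∀ s : ℂ, (3 : ℝ) / 2 < s.re →
        HasProd (fun p : {p : ℕ // p.Prime ∧
            ¬ ((p : ℤ) ∣ 2 * (4 * (-12987 * D ^ 2) ^ 3 + 27 * (-263466 * D ^ 3) ^ 2))} =>
          fac (-12987 * D ^ 2) (-263466 * D ^ 3) s p) (f s)) ∧ f 1 ≠ 0 := by
  obtain ⟨f, g1, hf1, hf2, hf3, τ, hτ⟩ := exists_fD hlat D hsq h1 h4 h15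
  refine ⟨f, hf1, hf2, hf3 ?_⟩
  rintro rfl
  rw [mul_zero] at hτ
  set M := D.natAbs with hM
  have h2 : ((SS sp M M : ℤ) : ℂ) * Op + ((SS sm M M : ℤ) : ℂ) * (2 * Om) * Complex.I = 0 := by
    have h3 : (4 : ℂ) * ∑ a ∈ rr M, ((jacobiSym (a : ℤ) M : ℤ) : ℂ) * II ((a : ℚ) / M) =
        ((SS sp M M : ℤ) : ℂ) * Op + ((SS sm M M : ℤ) : ℂ) * (2 * Om) * Complex.I := by
      unfold SS
      push_cast
      rw [Finset.mul_sum, Finset.sum_mul, Finset.sum_mul, Finset.sum_mul,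
        ← Finset.sum_add_distrib]
      refine Finset.sum_congr rfl fun a _ => ?_
      have := hs ((a : ℚ) / M)
      linear_combination ((jacobiSym (a : ℤ) M : ℤ) : ℂ) * this
    rw [← h3, ← hτ, mul_zero]
  have h3 := congrArg Complex.re h2
  have h4' := congrArg Complex.im h2
  simp at h3 h4'
  rcases hne with hne | hne
  · apply hne
    rcases h3 with h3 | h3
    · exact_mod_cast h3
    · exact absurd h3 hOp.ne'
  · apply hne
    rcases h4' with h4' | h4'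
    · exact_mod_cast h4'
    · exact absurd h4' hOm.ne'

end Pool.Agent.N974.MF
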