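import Pool.Agent.N974.MF.Act
import Pool.Agent.N974.MF.SymbDefs

/-!
The integral modular symbol of `X_0(15)`.
-/

set_option autoImplicit false

open Filter Topology MeasureTheory Set

namespace Pool.Agent.N974.MF

open Pool.Agent.W97.TW
open Pool.Agent.W97.MT (ap prim iI iI_pos)

section

variable (L : PeriodPair) (g2 : L.g₂ = 481 / 12) (g3 : L.g₃ = 4879 / 216)
include g2 g3

/-- the action of the Hecke operators on the integrals -/
theorem II_hecke (q : ℕ) (hq : q.Prime) (x : ℚ) :
    (ap E15 q : ℂ) * II x = (if q ∣ 15 then 0 else II (q * x)) +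
      ∑ b ∈ Finset.range q, II ((x + b) / q) := by
  obtain ⟨Ξ, U, P, rΞ, rU, rP, tΞ, tU, tP⟩ := expansions
  have hP0 : PowerSeries.coeff 0 P = 1 := by
    rw [tP 0 (by norm_num)]; rfl
  have hecke' : ∀ z, Pool.Agent.W97.MT.hecke 15 q f15 z = (ap E15 q : ℂ) * f15 z := by
    intro z
    have h1 := hecke_f15 rP hP0 hq z
    rw [coef_eq L g2 g3 rΞ rP tΞ tP hq] at h1
    exact h1
  have h1 := Pool.Agent.W97.MT.hhint 15 q f15 (ap E15 q : ℂ) hq (int_rat L g2 g3) hecke' x
  rw [prim_rat, prim_rat] at h1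
  simp_rw [prim_rat] at h1
  exact h1

theorem ap_val {q : ℕ} (hq : q.Prime) (h20 : q - 1 < 20) :
    (ap E15 q : ℤ) = lphi.getD (q - 1) 0 := by
  obtain ⟨Ξ, U, P, rΞ, rU, rP, tΞ, tU, tP⟩ := expansions
  rw [← coef_eq L g2 g3 rΞ rP tΞ tP hq, tP _ h20]

/-- the values under the Atkin-Lehner involution -/
theorem II_w15 (r : ℚ) (hr : r ≠ 0) : II (-1 / (15 * r)) = II 0 - II r := by
  obtain ⟨ε, C, hε, -, hF⟩ := isCusp15.map.const
  have hF' : ∀ z : ℂ, 0 < z.im → F ((((0 : ℝ) : ℂ) * z + ((-1 : ℝ) : ℂ)) /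
      (((15 : ℝ) : ℂ) * z + ((0 : ℝ) : ℂ))) = ε * F z + C := by
    intro z hz
    have := hF z hz
    unfold m15 at this
    push_cast
    rw [zero_mul, zero_add, add_zero]
    exact this
  have hN : (0 : ℝ) < 0 * 0 - (-1) * 15 := by norm_num
  have h0 : II 0 = C := mob_II_inf hN hF' 0 (by norm_num) (by norm_num)
  have h1 := mob_II_pole hN hF' 0 (by norm_num) (by norm_num)
  have h2 : ε = -1 := by
    rcases hε with rfl | rfl
    · exfalso
      have h3 := (integrals L g2 g3).2.1 0 (by simp) (by simp)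
      apply h3.1
      have : II 0 = 0 := by
        rw [← h0] at h1
        have : (2 : ℂ) * II 0 = 0 := by linear_combination h1
        simpa using this
      rw [this]
      exact zero_mem _
    · rfl
  have hr' : (r : ℝ) ≠ 0 := by exact_mod_cast hr
  have h3 := mob_II hN hF' r (-1 / (15 * r)) (by simpa using hr') (by
    push_cast
    field_simp
    ring)
  rw [h3, h2, h0]
  ring

theorem II_w5 (r : ℚ) (hr : 15 * r - 5 ≠ 0) :
    II ((5 * r - 2) / (15 * r - 5)) = II (1 / 3) - II r := by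
  obtain ⟨ε, C, hε, -, hF⟩ := isCusp5.map.const
  have hF' : ∀ z : ℂ, 0 < z.im → F ((((5 : ℝ) : ℂ) * z + ((-2 : ℝ) : ℂ)) /
      (((15 : ℝ) : ℂ) * z + ((-5 : ℝ) : ℂ))) = ε * F z + C := by
    intro z hz
    have := hF z hz
    unfold m5 at this
    push_cast
    exact this
  have hN : (0 : ℝ) < 5 * (-5) - (-2) * 15 := by norm_num
  have h0 : II (1 / 3) = C := mob_II_inf hN hF' (1 / 3) (by norm_num) (by norm_num)
  have h1 := mob_II_pole hN hF' (1 / 3) (by norm_num) (by norm_num)
  have h2 : ε = -1 := by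
    rcases hε with rfl | rfl
    · exfalso
      have h3 := (integrals L g2 g3).2.2.1 (1 / 3) (by norm_num) (by norm_num)
      apply h3.1
      have : II (1 / 3) = 0 := by
        rw [← h0] at h1
        have : (2 : ℂ) * II (1 / 3) = 0 := by linear_combination h1
        simpa using this
      rw [this]
      exact zero_mem _
    · rfl
  have hr' : (15 * (r : ℝ) - 5) ≠ 0 := by exact_mod_cast hr
  have h3 := mob_II hN hF' r ((5 * r - 2) / (15 * r - 5)) (by
    rw [← sub_eq_add_neg]; exact hr') (by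
    push_cast
    rw [← sub_eq_add_neg, div_mul_cancel₀ _ hr']
    ring)
  rw [h3, h2, h0]
  ring

end

/-- LAT in a usable form -/
theorem exists_symb (hlat : S_LAT) : ∃ (sp sm : ℚ → ℤ) (Op Om : ℝ), 0 < Op ∧ 0 < Om ∧
    (∀ r : ℚ, (4 : ℂ) * II r = sp r * Op + 2 * sm r * Om * Complex.I) ∧
    (∀ r, sp (-r) = sp r) ∧ (∀ r, sp (r + 1) = sp r) ∧ Symb15 sm (fun q => ap E15 q) := by
  obtain ⟨L, Op, Om, hOp, hOm, g2, g3, hL⟩ := hlat
  obtain ⟨-, k15, k3, k5, k1, k4⟩ := integrals L g2 g3
  have htors := TORS.s_tors L g2 g3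
  obtain ⟨z1, z2, z4, zw, -⟩ := k15 0 (by simp) (by simp)
  have zz : L.weierstrassP (2 * II 0) = 41 / 12 := ((htors (II 0) z1).1 zw).2.1
  have z0 := II_zero_im
  -- the real point of order four
  obtain ⟨m0, hm0, hm0odd⟩ : ∃ m0 : ℤ, 4 * II 0 = m0 * Op ∧ Odd m0 := by
    obtain ⟨a, b, hab⟩ := (hL _).1 z4
    have h1 := congrArg Complex.im hab
    have h2 : b = 0 := by
      simp [z0] at h1
      rcases h1 with h1 | h1
      · exact h1
      · exact absurd h1 hOm.ne'
    refine ⟨a, by rw [hab, h2]; simp, ?_⟩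
    rw [← Int.not_even_iff_odd]
    rintro ⟨k, hk⟩
    apply z2
    refine (hL _).2 ⟨k, 0, ?_⟩
    have h3 : (4 : ℂ) * II 0 = (k + k) * Op := by
      rw [hab, h2, hk]; push_cast; ring
    linear_combination (1 / 2 : ℂ) * h3
  have mem_ofI : ∀ w : ℂ, w ∈ L.lattice → ∃ k : ℤ, w.im = k * Om := by
    intro w hw
    obtain ⟨a, b, hab⟩ := (hL w).1 hw
    exact ⟨b, by rw [hab]; simp⟩
  have mem_ofR : ∀ w : ℂ, w ∈ L.lattice → ∃ k : ℤ, w.re = k * Op := by
    intro w hw
    obtain ⟨a, b, hab⟩ := (hL w).1 hw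
    exact ⟨a, by rw [hab]; simp⟩
  have two_diff : ∀ r : ℚ, (3 : ℤ) ∣ r.den → ¬ (5 : ℤ) ∣ r.den →
      2 * II r - 2 * II 0 ∈ L.lattice := by
    intro r h3 h5
    obtain ⟨e1, e2, e4, ew, -⟩ := k3 r h3 h5
    have e5 := ((htors (II r) e1).2.1 ew).2.1
    rcases Pool.Agent.W646.MT.s_inj L _ _ e2 z2 (by rw [e5, zz]) with h | h
    · exact h
    · have h6 := sub_mem h z4
      have : 2 * II r + 2 * II 0 - 4 * II 0 = 2 * II r - 2 * II 0 := by ring
      rwa [this] at h6
  -- imaginary parts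
  have him : ∀ r : ℚ, ∃ k : ℤ, 2 * (II r).im = k * Om := by
    intro r
    by_cases h3 : (3 : ℤ) ∣ r.den
    · by_cases h5 : (5 : ℤ) ∣ r.den
      · obtain ⟨k, hk⟩ := mem_ofI _ (k1 r h3 h5)
        exact ⟨2 * k, by rw [hk]; push_cast; ring⟩
      · obtain ⟨k, hk⟩ := mem_ofI _ (two_diff r h3 h5)
        refine ⟨k, ?_⟩
        rw [← hk]; simp [z0]
    · by_cases h5 : (5 : ℤ) ∣ r.den
      · obtain ⟨k, hk⟩ := mem_ofI _ (k5 r h3 h5).2.1
        refine ⟨k, ?_⟩
        rw [← hk]; simp
      · obtain ⟨k, hk⟩ := mem_ofI _ (k15 r h3 h5).2.2.2.2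
        refine ⟨2 * k, ?_⟩
        simp [z0] at hk
        rw [hk]; push_cast; ring
  have hre : ∀ r : ℚ, ∃ k : ℤ, 4 * (II r).re = k * Op := by
    intro r
    obtain ⟨k, hk⟩ := mem_ofR _ (k4 r)
    refine ⟨k, ?_⟩
    rw [← hk]; simp
  choose sm hsm using him
  choose sp hsp using hre
  have injm : ∀ x y : ℤ, (x : ℝ) * Om = y * Om → x = y := fun x y h => by
    exact_mod_cast mul_right_cancel₀ hOm.ne' h
  have injp : ∀ x y : ℤ, (x : ℝ) * Op = y * Op → x = y := fun x y h => by
    exact_mod_cast mul_right_cancel₀ hOp.ne' h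
  have hneg : ∀ x, sm (-x) = -sm x := by
    intro x
    apply injm
    push_cast
    rw [← hsm, neg_mul, ← hsm, II_conj, Complex.conj_im]
    ring
  have hsm0 : sm 0 = 0 := by
    have := hneg 0
    rw [neg_zero] at this
    omega
  refine ⟨sp, sm, Op, Om, hOp, hOm, ?_, ?_, ?_, ?_, hneg, ?_, ?_, ?_, ?_, ?_, ?_, ?_, ?_, ?_, ?_,
    ?_, ?_, ?_, ?_, ?_, ?_⟩
  · intro r
    apply Complex.ext
    · have := hsp r
      simp
      linarith
    · have := hsm r
      simp
      linarith
  · intro x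
    apply injp
    rw [← hsp, ← hsp, II_conj, Complex.conj_re]
  · intro x
    apply injp
    rw [← hsp, ← hsp, II_add_one]
  · intro x
    apply injm
    rw [← hsm, ← hsm, II_add_one]
  · -- Hecke
    intro q hq hq15 x
    apply injm
    push_cast
    have h1 := congrArg Complex.im (II_hecke L g2 g3 q hq x)
    rw [if_neg hq15, Complex.add_im, Complex.im_sum] at h1
    have h2 : ((ap E15 q : ℂ) * II x).im = (ap E15 q : ℝ) * (II x).im := by
      simp
    rw [h2] at h1
    rw [add_mul, Finset.sum_mul, ← hsm, mul_assoc, ← hsm]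
    have h3 : ∀ b ∈ Finset.range q, (sm ((x + b) / q) : ℝ) * Om = 2 * (II ((x + b) / q)).im :=
      fun b _ => (hsm _).symm
    rw [Finset.sum_congr rfl h3, ← Finset.mul_sum]
    linear_combination 2 * h1
  · intro q hq hq15 x
    apply injm
    push_cast
    have h1 := congrArg Complex.im (II_hecke L g2 g3 q hq x)
    rw [if_pos hq15, zero_add, Complex.im_sum] at h1
    have h2 : ((ap E15 q : ℂ) * II x).im = (ap E15 q : ℝ) * (II x).im := by
      simp
    rw [h2] at h1
    rw [Finset.sum_mul, mul_assoc, ← hsm]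
    have h3 : ∀ b ∈ Finset.range q, (sm ((x + b) / q) : ℝ) * Om = 2 * (II ((x + b) / q)).im :=
      fun b _ => (hsm _).symm
    rw [Finset.sum_congr rfl h3, ← Finset.mul_sum]
    linear_combination 2 * h1
  · intro A B C D hdet r h0
    apply injm
    push_cast
    have h1 := congrArg Complex.im (II_aff hdet r h0)
    rw [Complex.sub_im, Complex.add_im, z0] at h1
    rw [← hsm, h1, add_mul, ← hsm, ← hsm]
    ring
  · intro A B C D hdet hC
    apply injm
    obtain ⟨p, hp⟩ := F_gamma hdet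
    have hd : (D : ℚ) ≠ 0 := by
      intro h
      have h1 : D = 0 := by exact_mod_cast h
      rw [h1] at hdet
      have : (15 : ℤ) ∣ 1 := ⟨-(B * C), by linarith⟩
      norm_num at this
    have h1 := II_gamma_inf hdet hp hC
    have h2 := II_gamma hdet hp 0 (by simpa using hd)
    rw [mul_zero, mul_zero, zero_add, zero_add] at h2
    rw [← hsm, ← hsm, h1, h2, Complex.add_im, z0]
    ring
  · intro r hr
    apply injm
    have h1 := congrArg Complex.im (II_w15 L g2 g3 r hr)
    rw [Complex.sub_im, z0] at h1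
    rw [← hsm, h1]
    push_cast
    rw [neg_mul, ← hsm]
    ring
  · intro r hr
    apply injm
    have h1 := congrArg Complex.im (II_w5 L g2 g3 r hr)
    rw [Complex.sub_im] at h1
    rw [← hsm, h1]
    push_cast
    rw [sub_mul, ← hsm, ← hsm]
    ring
  · -- prime to 15
    intro r h3 h5
    obtain ⟨k, hk⟩ := mem_ofI _ (k15 r h3 h5).2.2.2.2
    refine ⟨k, ?_⟩
    apply injm
    rw [← hsm]
    simp [z0] at hk
    rw [hk]; push_cast; ring
  · -- divisible by 3 only
    intro r h3 h5
    rw [← Int.not_even_iff_odd]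
    rintro ⟨k, hk⟩
    obtain ⟨e1, e2, e4, ew, -⟩ := k3 r h3 h5
    -- the real translate
    have hI : (II r).im = k * Om := by
      have := hsm r
      rw [hk] at this
      push_cast at this
      linarith
    have hkmem : (k : ℂ) * Om * Complex.I ∈ L.lattice := (hL _).2 ⟨0, k, by simp⟩
    obtain ⟨m, hm⟩ : ∃ m : ℤ, 4 * (II r).re = m * Op := ⟨sp r, hsp r⟩
    have hw0 : II r = k * Om * Complex.I + (m : ℂ) * Op / 4 := by
      have e8 : ((m : ℂ) * Op / 4) = ((m * Op / 4 : ℝ) : ℂ) := by push_cast; ring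
      apply Complex.ext
      · rw [Complex.add_re, e8, Complex.ofReal_re]
        simp
        linarith
      · rw [Complex.add_im, e8, Complex.ofReal_im]
        simp [hI]
    have hw : II r - k * Om * Complex.I = (m : ℂ) * Op / 4 := by
      rw [hw0]; ring
    have hmodd : Odd m := by
      rw [← Int.not_even_iff_odd]
      rintro ⟨l, hl⟩
      apply e2
      have h6 : 2 * II r = 2 * (k * Om * Complex.I) + (l : ℂ) * Op := by
        have : II r = k * Om * Complex.I + (m : ℂ) * Op / 4 := by rw [← hw]; ring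
        rw [this, hl]; push_cast; ring
      rw [h6]
      exact (hL _).2 ⟨l, 2 * k, by push_cast; ring⟩
    have hpm : II r - II 0 ∈ L.lattice ∨ II r + II 0 ∈ L.lattice := by
      have e0 : II 0 = (m0 : ℂ) * Op / 4 := by linear_combination (1 / 4 : ℂ) * hm0
      have er : II r = k * Om * Complex.I + (m : ℂ) * Op / 4 := by rw [← hw]; ring
      obtain ⟨u, hu⟩ := hmodd
      obtain ⟨v, hv⟩ := hm0odd
      have h7 : (∃ l, m - m0 = 4 * l) ∨ ∃ l, m + m0 = 4 * l := by
        rcases Int.even_or_odd (u - v) with ⟨l, hl⟩ | ⟨l, hl⟩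
        · left; exact ⟨l, by omega⟩
        · right; exact ⟨l + v + 1, by omega⟩
      rcases h7 with ⟨l, hl⟩ | ⟨l, hl⟩
      · left
        refine (hL _).2 ⟨l, k, ?_⟩
        have hl' : (m : ℂ) - m0 = 4 * l := by exact_mod_cast hl
        rw [e0, er]
        linear_combination (Op / 4 : ℂ) * hl'
      · right
        refine (hL _).2 ⟨l, k, ?_⟩
        have hl' : (m : ℂ) + m0 = 4 * l := by exact_mod_cast hl
        rw [e0, er]
        linear_combination (Op / 4 : ℂ) * hl'
    have h8 : L.weierstrassP (II r) = L.weierstrassP (II 0) := by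
      rcases hpm with h9 | h9
      · have := L.weierstrassP_add_coe (II 0) ⟨II r - II 0, h9⟩
        rw [← this]
        congr 1
        simp
      · have := L.weierstrassP_add_coe (-II 0) ⟨II r + II 0, h9⟩
        rw [L.weierstrassP_neg] at this
        rw [← this]
        congr 1
        simp
    rw [ew, zw] at h8
    norm_num at h8
  · -- divisible by 5 only
    intro r h3 h5
    rw [← Int.not_even_iff_odd]
    rintro ⟨k, hk⟩
    obtain ⟨e1, e2, ew, -⟩ := k5 r h3 h5
    have hI : (II r).im = k * Om := by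
      have := hsm r
      rw [hk] at this
      push_cast at this
      linarith
    obtain ⟨m, hm⟩ := mem_ofR _ e2
    have hre2 : 2 * (II r).re = m * Op := by
      rw [← hm]; simp
    have er : II r = k * Om * Complex.I + (m : ℂ) * Op / 2 := by
      apply Complex.ext
      · have : ((m : ℂ) * Op / 2) = ((m * Op / 2 : ℝ) : ℂ) := by push_cast; ring
        rw [Complex.add_re, this, Complex.ofReal_re]
        simp
        linarith
      · have : ((m : ℂ) * Op / 2) = ((m * Op / 2 : ℝ) : ℂ) := by push_cast; ring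
        rw [Complex.add_im, this, Complex.ofReal_im]
        simp [hI]
    have hmodd : Odd m := by
      rw [← Int.not_even_iff_odd]
      rintro ⟨l, hl⟩
      apply e1
      refine (hL _).2 ⟨l, k, ?_⟩
      rw [er, hl]; push_cast; ring
    obtain ⟨u, hu⟩ := hmodd
    obtain ⟨v, hv⟩ := hm0odd
    have h9 : II r - 2 * II 0 ∈ L.lattice := by
      refine (hL _).2 ⟨u - v, k, ?_⟩
      have e0 : II 0 = (m0 : ℂ) * Op / 4 := by linear_combination (1 / 4 : ℂ) * hm0
      rw [e0, er, hu, hv]; push_cast; ring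
    have h8 : L.weierstrassP (II r) = L.weierstrassP (2 * II 0) := by
      have := L.weierstrassP_add_coe (2 * II 0) ⟨II r - 2 * II 0, h9⟩
      rw [← this]
      congr 1
      simp
    rw [ew, zz] at h8
    norm_num at h8
  · intro r h3 h5
    obtain ⟨k, hk⟩ := mem_ofI _ (k1 r h3 h5)
    refine ⟨k, ?_⟩
    apply injm
    rw [← hsm, hk]; push_cast; ring
  all_goals
    rw [ap_val L g2 g3 (by norm_num) (by norm_num)]
    rfl

end Pool.Agent.N974.MF
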