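import Pool.Agent.N974.MF.Lval
import Pool.Agent.N974.MF.Lval2

/-!
The twisted `L`-functions of `X_0(15)` for all primitive characters, by the Mellin transform.
-/

set_option autoImplicit false
set_option linter.style.haveILetI false

open Complex Filter Topology Set UpperHalfPlane MatrixGroups CongruenceSubgroup ZMod MeasureTheory
  Asymptotics

namespace Pool.Agent.N974.MF

open Pool.Agent.W440.TW Pool.Agent.W108.TW
open Pool.Agent.W97.MT (ap affCount z_ne const_of_deriv iI iI_pos line_im)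

/-- the form on the vertical line over `r` -/
noncomputable def vl (r : ℚ) (t : ℝ) : ℂ := ff ((r : ℂ) + t * Complex.I)

lemma vl_cont (r : ℚ) : ContinuousOn (vl r) (Ioi 0) :=
  ff_cont.comp (f := fun t : ℝ => (r : ℂ) + t * Complex.I) (s := Ioi 0) (by fun_prop)
    (fun u hu => by
      change 0 < ((r : ℂ) + u * Complex.I).im
      rw [line_im]
      simpa using hu)

lemma vl_top (r : ℚ) : (vl r) =O[atTop] fun t => Real.exp (-(2 * Real.pi) * t) := by
  obtain ⟨C, hC0, hC⟩ := ff_bound (y := 1) one_pos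
  refine IsBigO.of_bound C ?_
  filter_upwards [eventually_ge_atTop (1 : ℝ)] with t ht
  have him : ((r : ℂ) + t * Complex.I).im = t := by simp
  have h1 := hC ((r : ℂ) + t * Complex.I) (by rw [him]; exact ht)
  rw [him] at h1
  rw [Real.norm_of_nonneg (Real.exp_pos _).le]
  exact h1

lemma bot_aux {K : ℝ} (hK : 0 < K) (b : ℝ) :
    (fun t : ℝ => ((K * t)⁻¹) ^ 2 * Real.exp (-(2 * Real.pi) * (K * t)⁻¹)) =O[𝓝[>] 0]
      fun t => t ^ (-b) := by
  have h0 : Tendsto (fun t : ℝ => (K * t)⁻¹) (𝓝[>] 0) atTop := by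
    have e : (fun t : ℝ => (K * t)⁻¹) = fun t : ℝ => K⁻¹ * t⁻¹ := by
      ext t; rw [mul_inv]
    rw [e]
    exact tendsto_inv_nhdsGT_zero.const_mul_atTop (inv_pos.2 hK)
  have h1 : (fun s : ℝ => s ^ 2 * Real.exp (-(2 * Real.pi) * s)) =O[atTop] fun s => s ^ b := by
    have h2 := (isLittleO_exp_neg_mul_rpow_atTop (a := 2 * Real.pi) (by positivity) (b - 2)).isBigO
    have h3 : (fun s : ℝ => s ^ (2 : ℝ) * Real.exp (-(2 * Real.pi) * s)) =O[atTop]
        fun s => s ^ (2 : ℝ) * s ^ (b - 2) := (isBigO_refl _ _).mul h2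
    refine (h3.congr' ?_ ?_)
    · filter_upwards [eventually_gt_atTop (0 : ℝ)] with s hs
      rw [Real.rpow_two]
    · filter_upwards [eventually_gt_atTop (0 : ℝ)] with s hs
      rw [← Real.rpow_add hs]
      congr 1
      ring
  have h2 := h1.comp_tendsto h0
  refine h2.trans ?_
  refine IsBigO.of_bound (K ^ (-b)) ?_
  filter_upwards [self_mem_nhdsWithin] with t ht
  have ht0 : (0 : ℝ) < t := ht
  simp only [Function.comp_apply]
  rw [Real.inv_rpow (by positivity), ← Real.rpow_neg (by positivity), Real.mul_rpow hK.le ht0.le,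
    norm_mul, Real.norm_of_nonneg (by positivity : (0 : ℝ) ≤ K ^ (-b))]

lemma hit_bot {m j : ℂ → ℂ} (h : IsMap m j) {r : ℚ} (hit : Hit (r : ℂ) m) (b : ℝ) :
    (vl r) =O[𝓝[>] 0] fun t => t ^ (-b) := by
  obtain ⟨A, B, C, D, hdet, K, x, hK, he⟩ := hit
  obtain ⟨M, hM0, hM⟩ := ff_bound (inv_pos.2 hK)
  refine IsBigO.trans ?_ (bot_aux hK b)
  refine IsBigO.of_bound (K * M) ?_
  filter_upwards [self_mem_nhdsWithin, Ioo_mem_nhdsGT one_pos] with t ht ht1
  have ht0 : (0 : ℝ) < t := ht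
  set s : ℝ := (K * t)⁻¹ with hs
  have hs0 : 0 < s := by positivity
  have hts : (K * s)⁻¹ = t := by rw [hs]; field_simp
  have h1 := hit_ff h hdet hK he hs0
  rw [hts] at h1
  unfold vl
  rw [h1]
  have h2 : K⁻¹ ≤ s := by
    rw [hs]
    exact inv_anti₀ (by positivity) (by nlinarith [ht1.2])
  have h3 := hM (x + s * Complex.I) (by simpa using h2)
  have h4 : ((x : ℂ) + s * Complex.I).im = s := by simp
  rw [h4] at h3
  rw [Real.norm_of_nonneg (by positivity : (0 : ℝ) ≤ s ^ 2 * Real.exp (-(2 * Real.pi) * s))]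
  calc K * s ^ 2 * ‖ff (x + s * Complex.I)‖
      ≤ K * s ^ 2 * (M * Real.exp (-(2 * Real.pi) * s)) := by gcongr
    _ = K * M * (s ^ 2 * Real.exp (-(2 * Real.pi) * s)) := by ring

lemma vl_bot (r : ℚ) (b : ℝ) : (vl r) =O[𝓝[>] 0] fun t => t ^ (-b) := by
  rcases exists_hit r with h | h | h | h
  · exact hit_bot isCusp15.map h b
  · exact hit_bot isCusp5.map h b
  · exact hit_bot cusp3.map h b
  · exact hit_bot idMap h b

/-- the weighted sum of the forms -/
noncomputable def Ph {q : ℕ} [NeZero q] (χ : DirichletCharacter ℂ q) (t : ℝ) : ℂ :=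
  ∑ u : (ZMod q)ˣ, χ (u : ZMod q) * vl (((u : ZMod q).val : ℚ) / q) t

section

variable {q : ℕ} [NeZero q] (χ : DirichletCharacter ℂ q)

lemma Ph_cont : ContinuousOn (Ph χ) (Ioi 0) := by
  unfold Ph
  exact continuousOn_finsetSum _ fun u _ => continuousOn_const.mul (vl_cont _)

lemma Ph_top : (Ph χ) =O[atTop] fun t => Real.exp (-(2 * Real.pi) * t) := by
  have h : (∑ u : (ZMod q)ˣ, fun t => χ (u : ZMod q) * vl (((u : ZMod q).val : ℚ) / q) t)
      =O[atTop] fun t => Real.exp (-(2 * Real.pi) * t) :=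
    IsBigO.sum fun u _ => (vl_top _).const_mul_left _
  refine h.congr_left fun t => ?_
  rw [Finset.sum_apply]
  rfl

lemma Ph_bot (b : ℝ) : (Ph χ) =O[𝓝[>] 0] fun t => t ^ (-b) := by
  have h : (∑ u : (ZMod q)ˣ, fun t => χ (u : ZMod q) * vl (((u : ZMod q).val : ℚ) / q) t)
      =O[𝓝[>] 0] fun t => t ^ (-b) :=
    IsBigO.sum fun u _ => (vl_bot _ b).const_mul_left _
  refine h.congr_left fun t => ?_
  rw [Finset.sum_apply]
  rfl

lemma Ph_diff : Differentiable ℂ (mellin (Ph χ)) := fun s =>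
  mellin_differentiableAt_of_isBigO_rpow_exp (a := 2 * Real.pi) (b := s.re - 1) (by positivity)
    ((Ph_cont χ).locallyIntegrableOn measurableSet_Ioi) (Ph_top χ) (Ph_bot χ _) (by linarith)

/-- the expansion -/
lemma Ph_hasSum (hχ : χ.IsPrimitive) {t : ℝ} (ht : 0 < t) :
    HasSum (fun n : ℕ => gaussSum χ (stdAddChar (N := q)) * (χ⁻¹ (n : ZMod q) * cc n) *
      (Real.exp (-(2 * Real.pi * n) * t) : ℂ)) (Ph χ t) := by
  have hq : (q : ℂ) ≠ 0 := Nat.cast_ne_zero.2 (NeZero.ne q)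
  have h1 : ∀ u : (ZMod q)ˣ, HasSum (fun n : ℕ => χ (u : ZMod q) * (cc n *
      (stdAddChar ((u : ZMod q) * (n : ZMod q)) * (Real.exp (-(2 * Real.pi * n) * t) : ℂ))))
      (χ (u : ZMod q) * vl (((u : ZMod q).val : ℚ) / q) t) := by
    intro u
    have him : 0 < (((((u : ZMod q).val : ℚ) / q : ℚ) : ℂ) + t * Complex.I).im := by simpa using ht
    have h2 := Pool.Agent.W97.TW.hasSum_f f15 him
    rw [form15_of him] at h2
    refine HasSum.mul_left _ ?_
    unfold vl
    refine h2.congr_fun fun n => ?_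
    change _ = cc n * _
    congr 1
    have h3 : ((u : ZMod q) * (n : ZMod q)) = ((((u : ZMod q).val : ℤ) * n : ℤ) : ZMod q) := by
      push_cast
      rw [ZMod.natCast_zmod_val]
    rw [h3, stdAddChar_coe, Complex.ofReal_exp, ← Complex.exp_add]
    congr 1
    push_cast
    have e : 2 * (Real.pi : ℂ) * Complex.I * n * (((u : ZMod q).val : ℂ) / q + t * Complex.I) =
        2 * Real.pi * Complex.I * (((u : ZMod q).val : ℂ) * n) / q + -(2 * Real.pi * n) * t +
          2 * Real.pi * n * t * (Complex.I ^ 2 + 1) := by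
      field_simp
      ring
    rw [e, Complex.I_sq]
    ring
  have h2 := hasSum_sum (s := Finset.univ) fun u _ => h1 u
  unfold Ph
  refine h2.congr_fun fun n => ?_
  have h3 := gaussSum_mulShift_of_isPrimitive (stdAddChar (N := q)) hχ (n : ZMod q)
  have h4 : gaussSum χ (stdAddChar.mulShift (n : ZMod q)) =
      ∑ u : (ZMod q)ˣ, χ (u : ZMod q) * stdAddChar ((n : ZMod q) * (u : ZMod q)) := by
    unfold gaussSum
    simp only [AddChar.mulShift_apply]
    symm
    apply Finset.sum_of_injOn (fun u : (ZMod q)ˣ => (u : ZMod q))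
    · intro a _ b _ hab
      exact Units.ext hab
    · intro a _
      simp
    · intro a _ ha
      rw [MulChar.map_nonunit _ (fun hu => ha ⟨hu.unit, by simp, by simp⟩), zero_mul]
    · intro a _
      rfl
  rw [h4] at h3
  have h5 : gaussSum χ (stdAddChar (N := q)) * (χ⁻¹ (n : ZMod q) * cc n) *
      (Real.exp (-(2 * Real.pi * n) * t) : ℂ) =
      (χ⁻¹ (n : ZMod q) * gaussSum χ (stdAddChar (N := q))) *
      (cc n * (Real.exp (-(2 * Real.pi * n) * t) : ℂ)) := by ring
  rw [h5, ← h3, Finset.sum_mul]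
  apply Finset.sum_congr rfl
  intro u _
  rw [mul_comm (n : ZMod q)]
  ring

lemma Ph_mellin (hlat : S_LAT) (hχ : χ.IsPrimitive) {s : ℂ} (hs : 3 / 2 < s.re) :
    mellin (Ph χ) s = Complex.Gamma s * (2 * Real.pi : ℂ) ^ (-s) *
      (gaussSum χ (stdAddChar (N := q)) * ∑' n : ℕ, cc n * χ⁻¹ n * (n : ℂ) ^ (-s)) := by
  have hpi := Real.pi_pos
  have h1 := hasSum_mellin (a := fun n : ℕ => gaussSum χ (stdAddChar (N := q)) *
      (χ⁻¹ (n : ZMod q) * cc n)) (p := fun n : ℕ => 2 * Real.pi * n) (F := Ph χ) (s := s)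
    (fun n => by
      rcases Nat.eq_zero_or_pos n with rfl | hn
      · left
        simp only [cc_zero]
        ring
      · right
        have : (0 : ℝ) < n := by exact_mod_cast hn
        positivity) (by linarith) (fun t ht => Ph_hasSum χ hχ ht) ?_
  · rw [← h1.tsum_eq, ← tsum_mul_left, ← tsum_mul_left]
    refine tsum_congr fun n => ?_
    rcases Nat.eq_zero_or_pos n with rfl | hn
    · simp [cc_zero]
    · have hn' : (0 : ℝ) < n := by exact_mod_cast hn
      have e : ((2 * Real.pi * n : ℝ) : ℂ) ^ s = (2 * Real.pi : ℂ) ^ s * (n : ℂ) ^ s := by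
        have : ((2 * Real.pi * n : ℝ) : ℂ) = ((2 * Real.pi : ℝ) : ℂ) * ((n : ℝ) : ℂ) := by
          push_cast; ring
        rw [this, Complex.mul_cpow_ofReal_nonneg (by positivity) hn'.le]
        push_cast
        rfl
      rw [e, Complex.cpow_neg, Complex.cpow_neg]
      have h2 : ((2 * Real.pi : ℂ)) ^ s ≠ 0 := by
        rw [Ne, Complex.cpow_eq_zero_iff]
        rintro ⟨h, -⟩
        have : (Real.pi : ℂ) = 0 := by simpa using h
        exact hpi.ne' (by exact_mod_cast this)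
      have h3 : ((n : ℂ)) ^ s ≠ 0 := by
        rw [Ne, Complex.cpow_eq_zero_iff]
        rintro ⟨h, -⟩
        exact hn.ne' (by exact_mod_cast h)
      field_simp
  · -- summability
    have h2 := (cc_summable hlat χ⁻¹ s hs).mul_left
      (‖gaussSum χ (stdAddChar (N := q))‖ * (2 * Real.pi) ^ (-s.re))
    refine h2.congr fun n => ?_
    rcases Nat.eq_zero_or_pos n with rfl | hn
    · simp [cc_zero]
    · have hn' : (0 : ℝ) < n := by exact_mod_cast hn
      rw [norm_mul, norm_mul, norm_mul, norm_mul, Real.mul_rpow (by positivity) hn'.le]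
      have h3 : ‖(n : ℂ) ^ (-s)‖ = (n : ℝ) ^ (-s.re) := by
        rw [← Complex.ofReal_natCast, Complex.norm_cpow_eq_rpow_re_of_pos hn']
        simp
      rw [h3, Real.rpow_neg (by positivity), Real.rpow_neg hn'.le]
      field_simp

/-- the central value -/
lemma Ph_center (hlat : S_LAT) : 2 * Real.pi * mellin (Ph χ) 1 =
    ∑ u : (ZMod q)ˣ, χ (u : ZMod q) * II (((u : ZMod q).val : ℚ) / q) := by
  obtain ⟨L, Op, Om, hOp, hOm, g2, g3, hL⟩ := hlat
  have hint : ∀ r : ℚ, IntegrableOn (vl r) (Ioi 0) := (integrals L g2 g3).1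
  have h1 : mellin (Ph χ) 1 = ∫ t in Ioi (0 : ℝ), Ph χ t := by
    unfold mellin
    refine setIntegral_congr_fun measurableSet_Ioi fun t ht => ?_
    simp
  rw [h1]
  unfold Ph
  rw [integral_finsetSum _ (fun u _ => (hint _).const_mul _), Finset.mul_sum]
  refine Finset.sum_congr rfl fun u _ => ?_
  rw [integral_const_mul]
  unfold II vl
  ring

end

/-- the twisted `L`-function, all primitive characters -/
theorem exists_L_all (hlat : S_LAT) {q : ℕ} [NeZero q] (χ : DirichletCharacter ℂ q)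
    (hχ : χ.IsPrimitive) :
    ∃ g : ℂ → ℂ, Differentiable ℂ g ∧
      (∀ s : ℂ, 3 / 2 < s.re → HasProd (fun p : Nat.Primes =>
        (1 - (ap E15 p : ℂ) * χ p * (p : ℂ) ^ (-s) +
          (if (p : ℕ) ∣ 15 then 0 else (p : ℂ)) * (χ p) ^ 2 * (p : ℂ) ^ (-2 * s))⁻¹) (g s)) ∧
      gaussSum χ⁻¹ (stdAddChar (N := q)) * g 1 =
        ∑ u : (ZMod q)ˣ, χ⁻¹ (u : ZMod q) * II (((u : ZMod q).val : ℚ) / q) := by
  have hpi := Real.pi_pos
  have h2pi : (2 * Real.pi : ℂ) ≠ 0 := by
    have : (Real.pi : ℂ) ≠ 0 := by exact_mod_cast hpi.ne'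
    simpa using this
  have hχi := inv_primitive χ hχ
  have hg0 : gaussSum χ⁻¹ (stdAddChar (N := q)) ≠ 0 := gauss_ne_zero χ⁻¹ hχi
  refine ⟨fun s => (gaussSum χ⁻¹ (stdAddChar (N := q)))⁻¹ * ((2 * Real.pi : ℂ) ^ s *
    ((Complex.Gamma s)⁻¹ * mellin (Ph χ⁻¹) s)), ?_, ?_, ?_⟩
  · refine (Differentiable.mul ?_ (Complex.differentiable_one_div_Gamma.mul
      (Ph_diff χ⁻¹))).const_mul _
    exact Differentiable.const_cpow differentiable_id (Or.inl h2pi)
  · intro s hs
    have h1 := cc_euler hlat χ s hs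
    have hG : Complex.Gamma s ≠ 0 := by
      refine Complex.Gamma_ne_zero_of_re_pos ?_
      linarith
    have h3 : (2 * Real.pi : ℂ) ^ s ≠ 0 := by
      rw [Ne, Complex.cpow_eq_zero_iff]
      rintro ⟨h, -⟩
      exact h2pi h
    have h2 : (gaussSum χ⁻¹ (stdAddChar (N := q)))⁻¹ * ((2 * Real.pi : ℂ) ^ s *
        ((Complex.Gamma s)⁻¹ * mellin (Ph χ⁻¹) s)) = ∑' n : ℕ, cc n * χ n * (n : ℂ) ^ (-s) := by
      rw [Ph_mellin χ⁻¹ hlat hχi hs, inv_inv, Complex.cpow_neg]
      field_simp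
    show HasProd _ ((gaussSum χ⁻¹ (stdAddChar (N := q)))⁻¹ * ((2 * Real.pi : ℂ) ^ s *
        ((Complex.Gamma s)⁻¹ * mellin (Ph χ⁻¹) s)))
    rw [h2]
    exact h1
  · show gaussSum χ⁻¹ (stdAddChar (N := q)) * ((gaussSum χ⁻¹ (stdAddChar (N := q)))⁻¹ *
      ((2 * Real.pi : ℂ) ^ (1 : ℂ) * ((Complex.Gamma 1)⁻¹ * mellin (Ph χ⁻¹) 1))) = _
    rw [← mul_assoc, mul_inv_cancel₀ hg0, one_mul, Complex.cpow_one, Complex.Gamma_one, inv_one,
      one_mul]
    exact Ph_center χ⁻¹ hlat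

end Pool.Agent.N974.MF
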