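import Pool.Agent.N974.MF.Stm
import Pool.Agent.W349.MT.SIX
import Pool.Agent.W349.MT.MIN

set_option autoImplicit false

namespace Pool.Agent.N974.MF.FOUR

open WeierstrassCurve WeierstrassCurve.Affine
open Pool.Agent.W97.MT (affCount ap)

theorem e15_eq (p : ℕ) (P : ZMod p × ZMod p) :
    (E15.map (Int.castRingHom (ZMod p))).toAffine.Equation P.1 P.2 ↔
      P.2 ^ 2 + P.1 * P.2 + P.2 = P.1 ^ 3 + P.1 ^ 2 - 10 * P.1 - 10 := by
  have ha1 : (E15.map (Int.castRingHom (ZMod p))).a₁ = 1 := by simp [E15]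
  have ha2 : (E15.map (Int.castRingHom (ZMod p))).a₂ = 1 := by simp [E15]
  have ha3 : (E15.map (Int.castRingHom (ZMod p))).a₃ = 1 := by simp [E15]
  have ha4 : (E15.map (Int.castRingHom (ZMod p))).a₄ = -10 := by simp [E15]
  have ha6 : (E15.map (Int.castRingHom (ZMod p))).a₆ = -10 := by simp [E15]
  rw [WeierstrassCurve.Affine.equation_iff, ha1, ha2, ha3, ha4, ha6]
  constructor <;> intro h <;> linear_combination h

theorem aff_eq (p : ℕ) [NeZero p] : affCount E15 p =
    (Finset.univ.filter (fun P : ZMod p × ZMod p =>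
      P.2 ^ 2 + P.1 * P.2 + P.2 = P.1 ^ 3 + P.1 ^ 2 - 10 * P.1 - 10)).card := by
  unfold affCount
  rw [Nat.card_congr (Equiv.subtypeEquivRight (e15_eq p)), Nat.card_eq_fintype_card,
    Fintype.card_subtype]

theorem s_four : S_FOUR := by
  classical
  intro p hp h2 h3 h5
  haveI : Fact p.Prime := ⟨hp⟩
  have hne : ∀ n : ℕ, (n : ZMod p) = 0 → p ∣ n := fun n h => (ZMod.natCast_eq_zero_iff n p).1 h
  have h2' : (2 : ZMod p) ≠ 0 := by
    intro h
    have := hne 2 (by exact_mod_cast h)
    exact h2 ((Nat.prime_dvd_prime_iff_eq hp Nat.prime_two).1 this)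
  have h3' : (3 : ZMod p) ≠ 0 := by
    intro h
    have := hne 3 (by exact_mod_cast h)
    exact h3 ((Nat.prime_dvd_prime_iff_eq hp (by norm_num)).1 this)
  have h5' : (5 : ZMod p) ≠ 0 := by
    intro h
    have := hne 5 (by exact_mod_cast h)
    exact h5 ((Nat.prime_dvd_prime_iff_eq hp (by norm_num)).1 this)
  set W : WeierstrassCurve (ZMod p) := E15.map (Int.castRingHom (ZMod p)) with hW
  have ha1 : W.a₁ = 1 := by simp [hW, E15]
  have ha2 : W.a₂ = 1 := by simp [hW, E15]
  have ha3 : W.a₃ = 1 := by simp [hW, E15]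
  have ha4 : W.a₄ = -10 := by simp [hW, E15]
  have ha6 : W.a₆ = -10 := by simp [hW, E15]
  have hΔ : W.Δ ≠ 0 := by
    have : W.Δ = 3 ^ 4 * 5 ^ 4 := by
      simp only [WeierstrassCurve.Δ, WeierstrassCurve.b₂, WeierstrassCurve.b₄, WeierstrassCurve.b₆,
        WeierstrassCurve.b₈, ha1, ha2, ha3, ha4, ha6]
      norm_num
    rw [this]
    exact mul_ne_zero (pow_ne_zero _ h3') (pow_ne_zero _ h5')
  haveI : W.IsElliptic := ⟨isUnit_iff_ne_zero.2 hΔ⟩
  have hcard : Nat.card (WeierstrassCurve.Affine.Point W.toAffine) = affCount E15 p + 1 := by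
    rw [Nat.card_congr (pointEquiv W.toAffine)]
    unfold affCount
    exact Finite.card_option
  haveI : Finite (WeierstrassCurve.Affine.Point W.toAffine) := by
    haveI : Finite (WithZero {xy : ZMod p × ZMod p // W.toAffine.Equation xy.fst xy.snd}) :=
      inferInstanceAs (Finite (Option {xy : ZMod p × ZMod p //
        W.toAffine.Equation xy.fst xy.snd}))
    exact Finite.of_equiv _ (pointEquiv W.toAffine).symm
  -- a point of order four: `(8, 18)`, whose double is `(3, -2)`
  have hQe : W.toAffine.Equation 8 18 := by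
    rw [WeierstrassCurve.Affine.equation_iff, ha1, ha2, ha3, ha4, ha6]; norm_num
  have hTe : W.toAffine.Equation 3 (-2) := by
    rw [WeierstrassCurve.Affine.equation_iff, ha1, ha2, ha3, ha4, ha6]; norm_num
  have hQn := (equation_iff_nonsingular (W := W.toAffine)).1 hQe
  have hTn := (equation_iff_nonsingular (W := W.toAffine)).1 hTe
  have hT2 : (Point.some _ _ hTn : W.toAffine.Point) + Point.some _ _ hTn = 0 := by
    apply Point.add_self_of_Y_eq
    rw [negY, ha1, ha3]; norm_num
  have h45 : (45 : ZMod p) ≠ 0 := by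
    rw [show (45 : ZMod p) = 3 ^ 2 * 5 by norm_num]
    exact mul_ne_zero (pow_ne_zero _ h3') h5'
  have hY : (18 : ZMod p) ≠ W.toAffine.negY 8 18 := by
    rw [negY, ha1, ha3]
    intro h
    apply h45
    linear_combination h
  have hsl : W.toAffine.slope 8 8 18 18 = 4 := by
    rw [slope_of_Y_ne rfl hY, ha1, ha2, ha4, negY, ha1, ha3]
    rw [div_eq_iff]
    · norm_num
    · intro h; apply h45; linear_combination h
  have hQQ : (Point.some _ _ hQn : W.toAffine.Point) + Point.some _ _ hQn =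
      Point.some _ _ hTn := by
    rw [Point.add_self_of_Y_ne hY]
    have e1 : W.toAffine.addX 8 8 (W.toAffine.slope 8 8 18 18) = 3 := by
      rw [hsl, addX, ha1, ha2]; norm_num
    have e2 : W.toAffine.addY 8 8 18 (W.toAffine.slope 8 8 18 18) = -2 := by
      rw [addY, negAddY, e1, hsl, negY, ha1, ha3]; norm_num
    simp only [e1, e2]
  have hQ4 : addOrderOf (Point.some _ _ hQn : W.toAffine.Point) = 2 ^ (1 + 1) := by
    haveI : Fact (Nat.Prime 2) := ⟨Nat.prime_two⟩
    apply addOrderOf_eq_prime_pow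
    · rw [pow_one, two_nsmul, hQQ]
      exact Point.some_ne_zero _
    · rw [show (2 : ℕ) ^ (1 + 1) = 2 + 2 by norm_num, add_nsmul, two_nsmul, hQQ, hT2]
  rw [← hcard]
  have : 2 ^ (1 + 1) ∣ Nat.card (WeierstrassCurve.Affine.Point W.toAffine) := by
    rw [← hQ4]; exact addOrderOf_dvd_natCard _
  simpa using this

theorem s_min : S_MIN := by
  refine ⟨?_, ?_, ?_, ?_⟩
  · rw [aff_eq 2]; decide
  · rw [aff_eq 3]; decide
  · rw [aff_eq 5]; decide
  · intro p hp
    haveI : Fact p.Prime := ⟨hp⟩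
    haveI : NeZero p := ⟨hp.ne_zero⟩
    rw [aff_eq]
    have h1 : (Finset.univ.filter (fun P : ZMod p × ZMod p =>
        P.2 ^ 2 + P.1 * P.2 + P.2 = P.1 ^ 3 + P.1 ^ 2 - 10 * P.1 - 10)).card ≤
        2 * (Finset.univ : Finset (ZMod p)).card := by
      apply Finset.card_le_mul_card_image_of_maps_to (f := Prod.fst)
      · intro _ _; exact Finset.mem_univ _
      · intro x _
        rcases Finset.eq_empty_or_nonempty ((Finset.univ.filter (fun P : ZMod p × ZMod p =>
          P.2 ^ 2 + P.1 * P.2 + P.2 = P.1 ^ 3 + P.1 ^ 2 - 10 * P.1 - 10)).filter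
            (fun P => P.1 = x)) with h | h
        · rw [h]; simp
        · obtain ⟨⟨x0, y0⟩, h0⟩ := h
          simp only [Finset.mem_filter, Finset.mem_univ, true_and] at h0
          obtain ⟨h0, rfl⟩ := h0
          refine le_trans (Finset.card_le_card (t := {(x0, y0), (x0, -x0 - 1 - y0)}) ?_)
            Finset.card_le_two
          rintro ⟨x1, y1⟩ h1
          simp only [Finset.mem_filter, Finset.mem_univ, true_and] at h1
          obtain ⟨h1, rfl⟩ := h1
          have h2 : (y1 - y0) * (y1 - (-x1 - 1 - y0)) = 0 := by linear_combination h1 - h0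
          rcases mul_eq_zero.1 h2 with h3 | h3
          · rw [sub_eq_zero.1 h3]; simp
          · rw [sub_eq_zero.1 h3]; simp
    rwa [Finset.card_univ, ZMod.card] at h1

end Pool.Agent.N974.MF.FOUR
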