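import Pool.Agent.N974.MF.Eta
import Pool.Agent.W598.MT.QEXP
import Pool.Agent.W97.MT.QX

/-!
The first coefficients of the expansions, level 15.
-/

set_option autoImplicit false

open PowerSeries

namespace Pool.Agent.N974.MF

open Pool.Agent.W97.TW
open Pool.Agent.W97.MT (qq Rep RepC Q_ne Q_ne_pow norm_qq_lt num list_sum_range)

/-- the first twenty coefficients of the power series are given by the list -/
def Tr (A : ℤ⟦X⟧) (a : List ℤ) : Prop := ∀ n : ℕ, n < 20 → coeff n A = a.getD n 0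

/-- product -/
def mulL (a b : List ℤ) : List ℤ := (List.range 20).map fun n =>
  ((List.range (n + 1)).map fun i => a.getD i 0 * b.getD (n - i) 0).sum

/-- sum -/
def addL (a b : List ℤ) : List ℤ := (List.range 20).map fun n => a.getD n 0 + b.getD n 0

/-- difference -/
def subL (a b : List ℤ) : List ℤ := (List.range 20).map fun n => a.getD n 0 - b.getD n 0

/-- `q d/dq` -/
def thL (a : List ℤ) : List ℤ := (List.range 20).map fun n => n * a.getD n 0

/-- dilation -/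
def dilL (d : ℕ) (a : List ℤ) : List ℤ := (List.range 20).map fun n =>
  if n % d = 0 then a.getD (n / d) 0 else 0

lemma getD_map_range (f : ℕ → ℤ) {n : ℕ} (hn : n < 20) : ((List.range 20).map f).getD n 0 = f n := by
  rw [List.getD_eq_getElem?_getD, List.getElem?_map, List.getElem?_range hn]
  simp

namespace Tr

variable {A B W : ℤ⟦X⟧} {a b w : List ℤ}

lemma mul (hA : Tr A a) (hB : Tr B b) : Tr (A * B) (mulL a b) := by
  intro n hn
  unfold mulL
  rw [getD_map_range _ hn, coeff_mul, Finset.Nat.sum_antidiagonal_eq_sum_range_succ_mk,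
    list_sum_range]
  refine Finset.sum_congr rfl fun i hi => ?_
  have hi' : i < n + 1 := by simpa using hi
  dsimp only
  rw [hA i (by omega), hB (n - i) (by omega)]

lemma add (hA : Tr A a) (hB : Tr B b) : Tr (A + B) (addL a b) := by
  intro n hn
  unfold addL
  rw [getD_map_range _ hn, map_add, hA n hn, hB n hn]

lemma sub (hA : Tr A a) (hB : Tr B b) : Tr (A - B) (subL a b) := by
  intro n hn
  unfold subL
  rw [getD_map_range _ hn, map_sub, hA n hn, hB n hn]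

lemma theta (hA : Tr A a) : Tr (PowerSeries.X * PowerSeries.derivative ℤ A) (thL a) := by
  intro n hn
  unfold thL
  rw [getD_map_range _ hn]
  cases n with
  | zero => simp
  | succ n =>
    rw [coeff_succ_X_mul, coeff_derivative, hA (n + 1) hn]
    push_cast
    ring

lemma C (c : ℤ) : Tr (PowerSeries.C c) [c] := by
  intro n hn
  rw [coeff_C]
  cases n with
  | zero => simp
  | succ n => simp

lemma X : Tr PowerSeries.X [0, 1] := by
  intro n hn
  rw [coeff_X]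
  match n with
  | 0 => simp
  | 1 => simp
  | n + 2 => simp

lemma expand (hA : Tr A a) {d : ℕ} (hd : d ≠ 0) : Tr (PowerSeries.expand d hd A) (dilL d a) := by
  intro n hn
  unfold dilL
  rw [getD_map_range _ hn]
  split_ifs with h
  · obtain ⟨m, rfl⟩ := Nat.dvd_of_mod_eq_zero h
    have hd' : 0 < d := Nat.pos_of_ne_zero hd
    rw [coeff_expand_mul, Nat.mul_div_cancel_left _ hd']
    exact hA m (by nlinarith)
  · rw [coeff_expand_of_not_dvd]
    intro h'
    exact h (Nat.mod_eq_zero_of_dvd h')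

lemma one : Tr 1 [1] := by
  have := C 1
  rwa [map_one] at this

/-- power -/
def powL (a : List ℤ) : ℕ → List ℤ
  | 0 => [1]
  | n + 1 => mulL (powL a n) a

lemma pow (hA : Tr A a) (n : ℕ) : Tr (A ^ n) (powL a n) := by
  induction n with
  | zero => rw [pow_zero]; exact one
  | succ n ih => rw [pow_succ]; exact ih.mul hA

lemma congr (hA : Tr A a) (h : a = b) : Tr A b := h ▸ hA

/-- the polynomial of a list -/
def ofL (a : List ℤ) : ℤ⟦X⟧ := PowerSeries.mk fun n => a.getD n 0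

lemma ofL' (a : List ℤ) : Tr (ofL a) a := fun n _ => by rw [ofL, coeff_mk]

lemma dvd_iff : Tr A a ↔ PowerSeries.X ^ 20 ∣ A - ofL a := by
  rw [PowerSeries.X_pow_dvd_iff]
  unfold ofL
  simp only [map_sub, coeff_mk, sub_eq_zero]
  rfl

lemma cancel (hAW : Tr (A * W) b) (hW : Tr W w) (h1 : constantCoeff W = 1)
    (h : mulL a w = b) : Tr A a := by
  have hu : IsUnit W := by
    rw [PowerSeries.isUnit_iff_constantCoeff, h1]; exact isUnit_one
  rw [dvd_iff]
  rw [← hu.dvd_mul_right, sub_mul, PowerSeries.X_pow_dvd_iff]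
  intro m hm
  rw [map_sub, hAW m hm, ((ofL' a).mul hW) m hm, h, sub_self]

lemma of_eq (hA : Tr A a) (h : A = B) : Tr B a := h ▸ hA

lemma dvd_of_zero (hA : Tr A (List.replicate 20 0)) : PowerSeries.X ^ 20 ∣ A := by
  rw [PowerSeries.X_pow_dvd_iff]
  intro m hm
  rw [hA m hm]
  interval_cases m <;> rfl

end Tr

/-- list of Euler's product -/
def l1 : List ℤ := [1, -1, -1, 0, 0, 1, 0, 1, 0, 0, 0, 0, -1, 0, 0, -1, 0, 0, 0, 0]

theorem pent_bound (k : ℤ) (h : pentagonal k < 22) : -3 ≤ k ∧ k ≤ 3 := by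
  have h1 := two_mul_natCast_pentagonal k
  have h2 : (pentagonal k : ℤ) < 22 := by exact_mod_cast h
  constructor <;> nlinarith

lemma tr_pent : Tr (PowerSeries.pentagonalSeries ℤ) l1 := by
  intro m hm
  have c0 := PowerSeries.coeff_pentagonalSeries_pentagonal ℤ 0
  have c1 := PowerSeries.coeff_pentagonalSeries_pentagonal ℤ 1
  have c2 := PowerSeries.coeff_pentagonalSeries_pentagonal ℤ (-1)
  have c3 := PowerSeries.coeff_pentagonalSeries_pentagonal ℤ 2
  have c4 := PowerSeries.coeff_pentagonalSeries_pentagonal ℤ (-2)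
  have c5 := PowerSeries.coeff_pentagonalSeries_pentagonal ℤ 3
  have c6 := PowerSeries.coeff_pentagonalSeries_pentagonal ℤ (-3)
  have p0 : pentagonal 0 = 0 := by decide
  have p1 : pentagonal 1 = 1 := by decide
  have p2 : pentagonal (-1) = 2 := by decide
  have p3 : pentagonal 2 = 5 := by decide
  have p4 : pentagonal (-2) = 7 := by decide
  have p5 : pentagonal 3 = 12 := by decide
  have p6 : pentagonal (-3) = 15 := by decide
  rw [p0] at c0
  rw [p1] at c1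
  rw [p2] at c2
  rw [p3] at c3
  rw [p4] at c4
  rw [p5] at c5
  rw [p6] at c6
  have hz : ∀ m : ℕ, m < 22 → m ≠ 0 → m ≠ 1 → m ≠ 2 → m ≠ 5 → m ≠ 7 → m ≠ 12 → m ≠ 15 →
      (PowerSeries.pentagonalSeries ℤ).coeff m = 0 := by
    intro m hm h0 h1 h2 h3 h4 h5 h6
    apply PowerSeries.coeff_pentagonalSeries_eq_zero
    rintro ⟨k, hk⟩
    obtain ⟨k1, k2⟩ := pent_bound k (by omega)
    interval_cases k <;> omega
  interval_cases m
  · rw [c0]; simp [l1]
  · rw [c1]; simp [l1]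
  · rw [c2]; simp [l1]
  · rw [hz 3] <;> simp [l1]
  · rw [hz 4] <;> simp [l1]
  · rw [c3]; simp [l1]
  · rw [hz 6] <;> simp [l1]
  · rw [c4]; simp [l1]
  · rw [hz 8] <;> simp [l1]
  · rw [hz 9] <;> simp [l1]
  · rw [hz 10] <;> simp [l1]
  · rw [hz 11] <;> simp [l1]
  · rw [c5]; simp [l1]
  · rw [hz 13] <;> simp [l1]
  · rw [hz 14] <;> simp [l1]
  · rw [c6]; simp [l1]
  · rw [hz 16] <;> simp [l1]
  · rw [hz 17] <;> simp [l1]
  · rw [hz 18] <;> simp [l1]
  · rw [hz 19] <;> simp [l1]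

/-- list of `xi` -/
def lxi : List ℤ := [1, 1, 2, 2, 4, 0, 2, -1, 3, -4, 2, -3, 1, -11, -3, 0, 4, 3, 10, 18]

/-- list of `ups` -/
def lups : List ℤ := [1, -2, -1, -2, 9, 4, -4, -6, -8, 0, -26, 22, 32, 42, -25, -6, -21, -66, -56, 50]

/-- list of `phi` -/
def lphi : List ℤ := [1, -1, -1, -1, 1, 1, 0, 3, 1, -1, -4, 1, -2, 0, -1, -1, 2, -1, 4, -1]

theorem expansions : ∃ Ξ U P : ℤ⟦X⟧, Rep xi Ξ ∧ Rep ups U ∧ Rep phi P ∧
    Tr Ξ lxi ∧ Tr U lups ∧ Tr P lphi := by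
  obtain ⟨φ, hφ⟩ : ∃ φ : ℤ⟦X⟧, φ = PowerSeries.pentagonalSeries ℤ := ⟨_, rfl⟩
  have hR : Rep Q φ := fun q hq => by
    have := Pool.Agent.W598.MT.hasSum_phi q hq
    rw [hφ]
    simpa [Q] using this
  have t1 : Tr φ l1 := hφ ▸ tr_pent
  have h1 : constantCoeff φ = 1 := by
    have := t1 0 (by norm_num)
    simpa [l1] using this
  have three : (3 : ℕ) ≠ 0 := by norm_num
  have five : (5 : ℕ) ≠ 0 := by norm_num
  have ft : (15 : ℕ) ≠ 0 := by norm_num
  have r3 := hR.expand 3 three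
  have r5 := hR.expand 5 five
  have r15 := hR.expand 15 ft
  have t3 := t1.expand three
  have t5 := t1.expand five
  have t15 := t1.expand ft
  set E3 := PowerSeries.expand 3 three φ with hE3
  set E5 := PowerSeries.expand 5 five φ with hE5
  set E15 := PowerSeries.expand 15 ft φ with hE15
  have c3 : constantCoeff E3 = 1 := by rw [hE3]; simpa using h1
  have c5 : constantCoeff E5 = 1 := by rw [hE5]; simpa using h1
  have c15 : constantCoeff E15 = 1 := by rw [hE15]; simpa using h1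
  have hinv : ∀ E : ℤ⟦X⟧, constantCoeff E = 1 → ∃ V : ℤ⟦X⟧, E * V = 1 := fun E hE => by
    have hu : IsUnit E := by
      rw [PowerSeries.isUnit_iff_constantCoeff, hE]; exact isUnit_one
    exact hu.exists_right_inv
  obtain ⟨V1, hV1⟩ := hinv φ h1
  obtain ⟨V5, hV5⟩ := hinv (E15 ^ 5) (by rw [map_pow, c15, one_pow])
  obtain ⟨V8, hV8⟩ := hinv (E15 ^ 8) (by rw [map_pow, c15, one_pow])
  have i1 := hR.inv hV1 fun q hq => Q_ne hq
  have i5 := (r15.pow 5).inv hV5 fun q hq => pow_ne_zero _ (Q_ne_pow hq ft)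
  have i8 := (r15.pow 8).inv hV8 fun q hq => pow_ne_zero _ (Q_ne_pow hq ft)
  refine ⟨V1 * E3 * E5 ^ 5 * V5, φ ^ 2 * E3 ^ 4 * E5 ^ 2 * V8, φ * E3 * E5 * E15, ?_, ?_, ?_,
    ?_, ?_, ?_⟩
  · exact ((i1.mul r3).mul (r5.pow 5)).mul i5
  · exact (((hR.pow 2).mul (r3.pow 4)).mul (r5.pow 2)).mul i8
  · exact ((hR.mul r3).mul r5).mul r15
  · refine Tr.cancel (W := φ * E15 ^ 5) (b := mulL (dilL 3 l1) (Tr.powL (dilL 5 l1) 5)) ?_
      (t1.mul (t15.pow 5)) (by rw [map_mul, map_pow, h1, c15]; norm_num) (by decide +kernel)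
    refine (t3.mul (t5.pow 5)).of_eq ?_
    linear_combination (-(E3 * E5 ^ 5 * (V5 * E15 ^ 5))) * hV1 - E3 * E5 ^ 5 * hV5
  · refine Tr.cancel (W := E15 ^ 8)
      (b := mulL (mulL (Tr.powL l1 2) (Tr.powL (dilL 3 l1) 4)) (Tr.powL (dilL 5 l1) 2)) ?_
      (t15.pow 8) (by rw [map_pow, c15]; norm_num) (by decide +kernel)
    refine (((t1.pow 2).mul (t3.pow 4)).mul (t5.pow 2)).of_eq ?_
    linear_combination (-(φ ^ 2 * E3 ^ 4 * E5 ^ 2)) * hV8
  · exact (((t1.mul t3).mul t5).mul t15).congr (by decide +kernel)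

theorem identity_one {Ξ U : ℤ⟦X⟧} (hΞ : Tr Ξ lxi) (hU : Tr U lups) : PowerSeries.X ^ 20 ∣
    PowerSeries.X ^ 4 * Ξ ^ 2 * (16 * Ξ ^ 2 - 144 * PowerSeries.X ^ 4) ^ 2 -
      ((U - Ξ ^ 2 - 9 * PowerSeries.X ^ 4) ^ 2 + 28 * (PowerSeries.X ^ 2 * Ξ) ^ 2) ^ 2 := by
  refine Tr.dvd_of_zero ?_
  rw [num 16, num 144, num 9, num 28]
  refine Tr.congr ((((Tr.X.pow 4).mul (hΞ.pow 2)).mul ((((Tr.C 16).mul (hΞ.pow 2)).sub
    ((Tr.C 144).mul (Tr.X.pow 4))).pow 2)).sub (((((hU.sub (hΞ.pow 2)).sub ((Tr.C 9).mul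
    (Tr.X.pow 4))).pow 2).add ((Tr.C 28).mul (((Tr.X.pow 2).mul hΞ).pow 2))).pow 2)) ?_
  decide +kernel

theorem identity_two {Ξ P : ℤ⟦X⟧} (hΞ : Tr Ξ lxi) (hP : Tr P lphi) : PowerSeries.X ^ 20 ∣
    (PowerSeries.X * PowerSeries.derivative ℤ Ξ - 2 * Ξ) ^ 2 - P ^ 2 * (4 * Ξ ^ 3 -
      7 * (PowerSeries.X * Ξ) ^ 2 - 36 * (PowerSeries.X ^ 4 * Ξ)) := by
  refine Tr.dvd_of_zero ?_
  rw [num 2, num 4, num 7, num 36]
  refine Tr.congr (((hΞ.theta.sub ((Tr.C 2).mul hΞ)).pow 2).sub ((hP.pow 2).mul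
    ((((Tr.C 4).mul (hΞ.pow 3)).sub ((Tr.C 7).mul ((Tr.X.mul hΞ).pow 2))).sub
    ((Tr.C 36).mul ((Tr.X.pow 4).mul hΞ))))) ?_
  decide +kernel

end Pool.Agent.N974.MF
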