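import Pool.Agent.N974.MF.Stm
import Pool.Agent.W349.MT.TORS

set_option autoImplicit false

namespace Pool.Agent.N974.MF.TORS

open Pool.Agent.Helper487.ECM
open Pool.Agent.W349.MT (dwp_zero)

/-- duplication -/
theorem dup (L : PeriodPair) (hg2 : L.g₂ = 481 / 12) (hg3 : L.g₃ = 4879 / 216) {u : ℂ}
    (hu : u ∉ L.lattice) {x s : ℂ} (hP : L.weierstrassP u = x)
    (hs : s = 4 * x ^ 3 - 481 / 12 * x - 4879 / 216) (hs0 : s ≠ 0) :
    2 * u ∉ L.lattice ∧ L.weierstrassP (2 * u) =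
      -2 * x + (6 * x ^ 2 - 481 / 24) ^ 2 / (4 * s) := by
  have hu' : u ∈ Dom L := hu
  have hY1 : L.derivWeierstrassP u ^ 2 = s := by
    rw [L.derivWeierstrassP_sq u hu, hP, hg2, hg3, hs]
  have hY1ne : L.derivWeierstrassP u ≠ 0 := by
    intro h; rw [h] at hY1; exact hs0 (by rw [← hY1]; norm_num)
  have h2u : 2 * u ∉ L.lattice := fun h => hY1ne (dwp_zero L u h)
  have h2u' : u + u ∈ Dom L := by
    show u + u ∉ L.lattice
    rw [← two_mul]; exact h2u
  refine ⟨h2u, ?_⟩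
  have h := wp_dup L hu' h2u' (by rw [wp_one_eq]; exact hY1ne)
  rw [wp_two L hu', wp_one_eq, wp_zero_eq, hP, hg2, ← two_mul] at h
  rw [h, div_pow, mul_pow, hY1]
  ring

/-- points of order two -/
theorem two_tors (L : PeriodPair) (hg2 : L.g₂ = 481 / 12) (hg3 : L.g₃ = 4879 / 216) {u : ℂ}
    (hu : u ∉ L.lattice) {x : ℂ} (hP : L.weierstrassP u = x)
    (hs : 4 * x ^ 3 - 481 / 12 * x - 4879 / 216 = 0) : 2 * u ∈ L.lattice := by
  by_contra h6
  have h := Wg.wpd_ne L u h6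
  apply h
  have hsq := L.derivWeierstrassP_sq _ hu
  rw [hP, hg2, hg3, hs] at hsq
  exact pow_eq_zero_iff (two_ne_zero) |>.1 hsq

theorem s_tors : S_TORS := by
  intro L hg2 hg3 u hu
  have four : 4 * u = 2 * (2 * u) := by ring
  refine ⟨fun hP => ?_, fun hP => ?_, fun hP => ?_, fun hP => ?_⟩
  · obtain ⟨h1, h2⟩ := dup L hg2 hg3 hu hP (s := 2025) (by norm_num) (by norm_num)
    have h3 : L.weierstrassP (2 * u) = 41 / 12 := by rw [h2]; norm_num
    exact ⟨h1, h3, by rw [four]; exact two_tors L hg2 hg3 h1 h3 (by norm_num)⟩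
  · obtain ⟨h1, h2⟩ := dup L hg2 hg3 hu hP (s := 25) (by norm_num) (by norm_num)
    have h3 : L.weierstrassP (2 * u) = 41 / 12 := by rw [h2]; norm_num
    exact ⟨h1, h3, by rw [four]; exact two_tors L hg2 hg3 h1 h3 (by norm_num)⟩
  · exact two_tors L hg2 hg3 hu hP (by norm_num)
  · exact two_tors L hg2 hg3 hu hP (by norm_num)

end Pool.Agent.N974.MF.TORS
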