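import Pool.Agent.N974.MF.Coef
import Pool.Agent.N974.MF.FOUR
import Pool.Agent.W97.MT.Asm

/-!
The modular form of level 15 and the curve `15a`.
-/

set_option autoImplicit false

open UpperHalfPlane MatrixGroups CongruenceSubgroup Filter Topology MeasureTheory
open scoped ModularForm Pointwise

namespace Pool.Agent.N974.MF

open Pool.Agent.W97.TW
open Pool.Agent.W97.MT (qq qq_ne norm_qq norm_qq_lt im_mul z_ne H_open Q_ne Q_ne_pow
  QV iI iI_pos iI_eventually tendsto_qq eq_or_eq_neg tpi_ne hasDerivAt_qq const_of_deriv line_im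
  line_re cusp_expansion Rep RepC num exists_qq qParam_one affCount ap prim qq_conj)

lemma form15_of {w : ℂ} (hw : 0 < w.im) : f15 (ofComplex w) = ff w := by
  rw [ofComplex_apply_of_im_pos hw]; rfl

lemma line_eq (z : ℂ) (hz : 0 ≤ z.im) : Set.EqOn
    (fun t : ℝ => f15 (ofComplex (z + t * Complex.I))) (fun t : ℝ => ff (z + t * Complex.I))
    (Set.Ioi 0) := by
  intro t ht
  have ht' : 0 < t := ht
  exact form15_of (by rw [line_im]; linarith)

lemma prim_eq (z : ℂ) (hz : 0 ≤ z.im) :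
    prim f15 z = 2 * Real.pi * ∫ t in Set.Ioi (0 : ℝ), ff (z + t * Complex.I) := by
  unfold prim
  rw [setIntegral_congr_fun measurableSet_Ioi (line_eq z hz)]

lemma prim_rat (r : ℚ) : prim f15 (r : ℂ) = II r := prim_eq _ (by simp)

lemma prim_H (z : ℍ) : prim f15 z = F z := by
  rw [prim_eq _ z.im_pos.le]
  refine integral_line _ z.im_pos.le (ff_line_int _ (by rw [add_zero]; exact z.im_pos)) ?_
  have h1 : ContinuousAt (fun t : ℝ => F ((z : ℂ) + t * Complex.I)) 0 := by
    refine ContinuousAt.comp (g := F) (f := fun t : ℝ => (z : ℂ) + t * Complex.I) ?_ (by fun_prop)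
    simp only [Complex.ofReal_zero, zero_mul, add_zero]
    exact (F_diff z.im_pos).continuousAt
  have h2 := h1.tendsto
  simp only [Complex.ofReal_zero, zero_mul, add_zero] at h2
  exact h2.mono_left nhdsWithin_le_nhds

lemma phi_conj (q : ℂ) (hq : ‖q‖ < 1) : phi (starRingEnd ℂ q) = starRingEnd ℂ (phi q) := by
  obtain ⟨Ξ, U, P, rΞ, rU, rP, tΞ, tU, tP⟩ := expansions
  have h1 := rP (starRingEnd ℂ q) (by simpa using hq)
  have h2 := (rP q hq).map (starRingEnd ℂ) Complex.continuous_conj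
  refine h1.unique (h2.congr_fun ?_ |> fun x => x)
  intro n
  simp only [Function.comp_apply, map_mul, map_pow, PowerSeries.coeff_map, eq_intCast]
  congr 1
  exact (map_intCast (starRingEnd ℂ) _).symm

lemma ff_conj {z : ℂ} (hz : 0 < z.im) : ff (-(starRingEnd ℂ z)) = starRingEnd ℂ (ff z) := by
  rw [ff_q, ff_q, qq_conj, phi_conj _ (norm_qq_lt hz), map_mul]

lemma II_conj (r : ℚ) : II (-r) = starRingEnd ℂ (II r) := by
  unfold II
  rw [map_mul, ← integral_conj]
  have h2 : (starRingEnd ℂ) (2 * (Real.pi : ℂ)) = 2 * Real.pi := by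
    rw [map_mul, Complex.conj_ofReal]
    congr 1
    exact Complex.conj_ofNat 2
  rw [h2]
  congr 1
  refine setIntegral_congr_fun measurableSet_Ioi fun t ht => ?_
  have ht' : 0 < t := ht
  rw [← ff_conj (by rw [line_im]; simpa using ht')]
  congr 1
  simp only [map_add, map_mul, Complex.conj_I, Complex.conj_ofReal]
  have : (starRingEnd ℂ) ((r : ℚ) : ℂ) = r := by
    have e : ((r : ℚ) : ℂ) = (((r : ℚ) : ℝ) : ℂ) := by push_cast; rfl
    rw [e]; exact Complex.conj_ofReal _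
  rw [this]
  push_cast
  ring

lemma II_add_one (r : ℚ) : II (r + 1) = II r := by
  unfold II
  congr 1
  refine setIntegral_congr_fun measurableSet_Ioi fun t ht => ?_
  have e : qq (((r + 1 : ℚ) : ℂ) + t * Complex.I) = qq ((r : ℂ) + t * Complex.I) := by
    unfold qq
    push_cast
    have : 2 * (Real.pi : ℂ) * Complex.I * ((r : ℂ) + 1 + t * Complex.I) =
        2 * Real.pi * Complex.I * ((r : ℂ) + t * Complex.I) + 2 * Real.pi * Complex.I := by ring
    rw [this, Complex.exp_add, Complex.exp_two_pi_mul_I, mul_one]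
  rw [ff_q, ff_q, e]

lemma II_zero_im : (II 0).im = 0 := by
  have h1 := II_conj 0
  rw [neg_zero] at h1
  have h2 := congrArg Complex.im h1
  rw [Complex.conj_im] at h2
  linarith

/-- an integer multiple of a point of order four -/
lemma four_dvd (L : PeriodPair) (x : ℂ) (h2 : 2 * x ∉ L.lattice)
    (h4 : 4 * x ∈ L.lattice) (n : ℤ) (hn : (n : ℂ) * x ∈ L.lattice) : (4 : ℤ) ∣ n := by
  have key : ∀ m k : ℤ, (m : ℂ) * x ∈ L.lattice → ((k * m : ℤ) : ℂ) * x ∈ L.lattice := by
    intro m k hm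
    have := L.lattice.smul_mem k hm
    rw [zsmul_eq_mul] at this
    push_cast
    rwa [mul_assoc]
  have h4' : ((4 : ℤ) : ℂ) * x ∈ L.lattice := by exact_mod_cast h4
  have hn2 : ¬ ((2 : ℤ) : ℂ) * x ∈ L.lattice := by exact_mod_cast h2
  by_contra hc
  apply hn2
  rcases Int.even_or_odd n with ⟨k, hk⟩ | ⟨k, hk⟩
  · -- n = 2k with k odd
    obtain ⟨l, hl⟩ : ∃ l, k = 2 * l + 1 := ⟨k / 2, by omega⟩
    have h := sub_mem hn (key 4 l h4')
    convert h using 1
    rw [hk, hl]; push_cast; ring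
  · have h := sub_mem (key n 2 hn) (key 4 k h4')
    convert h using 1
    rw [hk]; push_cast; ring

lemma ff_ne_zero : ∃ z : ℍ, f15 z ≠ 0 := ⟨UpperHalfPlane.I, ff_ne UpperHalfPlane.I.im_pos⟩

lemma int_rat (L : PeriodPair) (g2 : L.g₂ = 481 / 12) (g3 : L.g₃ = 4879 / 216) (r : ℚ) :
    IntegrableOn (fun t : ℝ => f15 (ofComplex ((r : ℂ) + t * Complex.I))) (Set.Ioi 0) :=
  ((integrals L g2 g3).1 r).congr_fun
    (line_eq _ (by simp)).symm measurableSet_Ioi

/-- the coefficients of the form and of the curve -/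
theorem coef_eq (L : PeriodPair) (g2 : L.g₂ = 481 / 12) (g3 : L.g₃ = 4879 / 216)
    {P Ξ : PowerSeries ℤ} (rΞ : Rep xi Ξ) (rP : Rep phi P)
    (tΞ : Tr Ξ lxi) (tP : Tr P lphi) {l : ℕ} (hl : l.Prime) :
    PowerSeries.coeff (l - 1) P = ap E15 l := by
  obtain ⟨m2, m3, m5, mb⟩ := FOUR.s_min
  have hP0 : PowerSeries.coeff 0 P = 1 := by
    rw [tP 0 (by norm_num)]; rfl
  by_cases l2 : l = 2
  · subst l2
    rw [tP 1 (by norm_num)]
    unfold ap; rw [m2]; rfl
  by_cases l3 : l = 3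
  · subst l3
    rw [tP 2 (by norm_num)]
    unfold ap; rw [m3]; rfl
  by_cases l5 : l = 5
  · subst l5
    rw [tP 4 (by norm_num)]
    unfold ap; rw [m5]; rfl
  set A : ℤ := PowerSeries.coeff (l - 1) P with hA
  obtain ⟨-, i1, -, -, -, -⟩ := integrals L g2 g3
  obtain ⟨-, i2, i4, -, -⟩ := i1 0 (by simp) (by simp)
  have hH : ∀ z : ℍ, Pool.Agent.W97.MT.hecke 15 l f15 z = (A : ℂ) * f15 z := fun z =>
    hecke_f15 rP hP0 hl z
  -- the bound
  have hb : |A| ≤ l + 1 := by
    have h1 := Pool.Agent.W97.MT.hsup 15 f15 ff_ne_zero l hl A hH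
    rw [Complex.norm_intCast] at h1
    exact_mod_cast h1
  -- modulo l
  have hmod : (l : ℤ) ∣ A - ap E15 l := by
    have h1 := coeff_mod rΞ rP tΞ tP hl l2
    have h2 := (ZMod.intCast_eq_intCast_iff_dvd_sub _ _ _).1 h1
    have h3 := (dvd_neg (α := ℤ)).2 h2
    rwa [neg_sub] at h3
  -- modulo 4
  have hl15 : ¬ l ∣ 15 := by
    intro h
    have h1 : l ∣ 3 * 5 := by simpa using h
    rcases (Nat.Prime.dvd_mul hl).1 h1 with h2 | h2
    · exact l3 ((Nat.prime_dvd_prime_iff_eq hl Nat.prime_three).1 h2)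
    · exact l5 ((Nat.prime_dvd_prime_iff_eq hl (by norm_num)).1 h2)
  have h4A : (4 : ℤ) ∣ l + 1 - A := by
    apply four_dvd L (II 0) i2 i4
    have h1 := Pool.Agent.W97.MT.hhint 15 l f15 A hl (int_rat L g2 g3) hH 0
    rw [if_neg hl15, prim_rat, prim_rat, mul_zero] at h1
    have h2 : ∀ b ∈ Finset.range l, prim f15 (((0 + b) / l : ℚ) : ℂ) - II 0 ∈ L.lattice := by
      intro b _
      rw [prim_rat]
      have hden : (((((0 : ℚ) + b) / l : ℚ).den : ℤ)) ∣ l := by
        have := Rat.den_dvd (b : ℤ) (l : ℤ)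
        rw [zero_add]
        rwa [Rat.divInt_eq_div, Int.cast_natCast, Int.cast_natCast] at this
      have hp : ∀ m : ℕ, m.Prime → l ≠ m → ¬ ((m : ℤ)) ∣ ((((0 : ℚ) + b) / l : ℚ).den : ℤ) := by
        intro m hm hlm h
        have h3 : (m : ℤ) ∣ l := h.trans hden
        have h4 : m ∣ l := by exact_mod_cast h3
        exact hlm ((Nat.prime_dvd_prime_iff_eq hm hl).1 h4).symm
      exact (i1 _ (hp 3 Nat.prime_three l3) (hp 5 (by norm_num) l5)).2.2.2.2
    have h3 := sum_mem h2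
    rw [Finset.sum_sub_distrib, Finset.sum_const, Finset.card_range, nsmul_eq_mul] at h3
    have h4 : ((l + 1 - A : ℤ) : ℂ) * II 0 =
        -((∑ b ∈ Finset.range l, prim f15 (((0 + b) / l : ℚ) : ℂ)) - (l : ℂ) * II 0) := by
      push_cast at h1 ⊢
      linear_combination (-1 : ℂ) * h1
    rw [h4]
    exact neg_mem h3
  have h4E : (4 : ℤ) ∣ l + 1 - ap E15 l := by
    have h1 := FOUR.s_four l hl l2 l3 l5
    have h2 : ((4 : ℕ) : ℤ) ∣ ((affCount E15 l + 1 : ℕ) : ℤ) := Int.natCast_dvd_natCast.2 h1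
    unfold ap
    push_cast at h2
    convert h2 using 1
    ring
  have h4 : (4 : ℤ) ∣ A - ap E15 l := by omega
  have hE : |ap E15 l| ≤ l := by
    have h1 := mb l hl
    unfold ap
    rw [abs_le]
    omega
  have hcop : IsCoprime (4 : ℤ) (l : ℤ) := by
    have h1 : Nat.Coprime 4 l := by
      rw [show 4 = 2 * 2 by norm_num]
      have := (Nat.coprime_primes Nat.prime_two hl).2 (Ne.symm l2)
      exact Nat.Coprime.mul_left this this
    exact_mod_cast Nat.isCoprime_iff_coprime.2 h1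
  obtain ⟨k, hk⟩ := hcop.mul_dvd h4 hmod
  have hA' := abs_le.1 hb
  have hE' := abs_le.1 hE
  have hl2 : 2 ≤ l := hl.two_le
  have hk0 : k = 0 := by
    have h1 : |A - ap E15 l| < 4 * l := by
      rw [abs_lt]
      constructor <;> [linarith [hA'.1, hE'.2]; linarith [hA'.2, hE'.1]]
    rw [hk, abs_mul, abs_of_pos (by positivity : (0 : ℤ) < 4 * l)] at h1
    have h2 : |k| < 1 := by nlinarith [abs_nonneg k]
    exact Int.abs_lt_one_iff.1 h2
  rw [hk0, mul_zero] at hk
  linarith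

end Pool.Agent.N974.MF
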