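import Pool.Agent.N974.MF.Mel
import Pool.Agent.N974.MF.Lfin

/-!
The `L`-function of the quadratic twists of `X_0(15)`, all discriminants.
-/

set_option autoImplicit false
set_option linter.style.haveILetI false

open Complex Filter Topology Set UpperHalfPlane MatrixGroups CongruenceSubgroup ZMod

namespace Pool.Agent.N974.MF

open Pool.Agent.W97.MT (ap affCount)
open Pool.Agent.H491R3.J (OS)
open Pool.Agent.Y687 (cnt cnt_eq fac p_cpow hasProd_transfer nrm ne_zero_of_norm sum_rrC rr mem_rr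
  jacD cnt_twistD SS)

theorem bf2_ne0 {x : ℤ} (hx : x = 0 ∨ x = 1 ∨ x = -1) : bf x 2 1 ≠ 0 := by
  rcases hx with rfl | hx
  · unfold bf; simp
  · exact bf2_ne hx

theorem bf3_ne0 {x : ℤ} (hx : x = 0 ∨ x = 1 ∨ x = -1) : bf x 3 1 ≠ 0 := by
  rcases hx with rfl | hx
  · unfold bf; simp
  · exact bf3_ne hx

theorem bf5_ne0 {x : ℤ} (hx : x = 0 ∨ x = 1 ∨ x = -1) : bf x 5 1 ≠ 0 := by
  rcases hx with rfl | hx
  · unfold bf; simp
  · exact bf5_ne hx

theorem bf2_ne0' {x : ℤ} (hx : x = 0 ∨ x = 1 ∨ x = -1) {s : ℂ} (hs : 1 < s.re) : bf x 2 s ≠ 0 := by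
  rcases hx with rfl | hx
  · unfold bf; simp
  · exact bf2_ne' hx hs

theorem bf3_ne0' {x : ℤ} (hx : x = 0 ∨ x = 1 ∨ x = -1) {s : ℂ} (hs : 1 < s.re) : bf x 3 s ≠ 0 := by
  rcases hx with rfl | hx
  · unfold bf; simp
  · exact bf3_ne' hx hs

theorem bf5_ne0' {x : ℤ} (hx : x = 0 ∨ x = 1 ∨ x = -1) {s : ℂ} (hs : 1 < s.re) : bf x 5 s ≠ 0 := by
  rcases hx with rfl | hx
  · unfold bf; simp
  · exact bf5_ne' hx hs

/-- the `L`-function of the quadratic twist, for a primitive character whose values at the primes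
are those of the twist -/
theorem exists_fG (hlat : S_LAT) (D : ℤ) {q : ℕ} [NeZero q] (χ : DirichletCharacter ℂ q)
    (hχ : χ.IsPrimitive) (x : ℕ → ℤ) (hx : ∀ p : ℕ, p.Prime → χ (p : ZMod q) = (x p : ℂ))
    (hv : ∀ p : ℕ, p.Prime → x p = 0 ∨ x p = 1 ∨ x p = -1)
    (hbad : ∀ p : ℕ, p.Prime → p ≠ 2 → p ≠ 3 → p ≠ 5 → p ∣ D.natAbs → x p = 0)
    (hgood : ∀ p : ℕ, p.Prime → p ≠ 2 → p ≠ 3 → p ≠ 5 → ¬ p ∣ D.natAbs → x p ^ 2 = 1 ∧
      (p : ℤ) - cnt (-12987 * D ^ 2) (-263466 * D ^ 3) p = x p * ap E15 p) :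
    ∃ (f : ℂ → ℂ) (g1 : ℂ), Differentiable ℂ f ∧
      (∀ s : ℂ, (3 : ℝ) / 2 < s.re →
        HasProd (fun p : {p : ℕ // p.Prime ∧
            ¬ ((p : ℤ) ∣ 2 * (4 * (-12987 * D ^ 2) ^ 3 + 27 * (-263466 * D ^ 3) ^ 2))} =>
          fac (-12987 * D ^ 2) (-263466 * D ^ 3) s p) (f s)) ∧
      (g1 ≠ 0 → f 1 ≠ 0) ∧
      gaussSum χ⁻¹ (stdAddChar (N := q)) * g1 =
        ∑ u : (ZMod q)ˣ, χ⁻¹ (u : ZMod q) * II (((u : ZMod q).val : ℚ) / q) := by
  classical
  obtain ⟨g, hg1, hg2, hg3⟩ := exists_L_all hlat χ hχ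
  have hc2 := hv 2 Nat.prime_two
  have hc3 := hv 3 Nat.prime_three
  have hc5 := hv 5 (by norm_num)
  refine ⟨fun s => g s * (bf (x 2) 2 s * (bf (x 3) 3 s * bf (x 5) 5 s)), g 1,
    hg1.mul ((bf_diff (x 2) (by norm_num)).mul ((bf_diff (x 3) (by norm_num)).mul
      (bf_diff (x 5) (by norm_num)))), ?_, ?_, hg3⟩
  · intro s hs
    have hs' : 3 / 2 < s.re := hs
    have e1 := hg2 s hs'
    -- the finite product
    set p2 : Nat.Primes := ⟨2, Nat.prime_two⟩ with hp2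
    set p3 : Nat.Primes := ⟨3, Nat.prime_three⟩ with hp3
    set p5 : Nat.Primes := ⟨5, by norm_num⟩ with hp5
    have n23 : p2 ≠ p3 := by rw [hp2, hp3]; intro h; have := congrArg Subtype.val h; simp at this
    have n25 : p2 ≠ p5 := by rw [hp2, hp5]; intro h; have := congrArg Subtype.val h; simp at this
    have n35 : p3 ≠ p5 := by rw [hp3, hp5]; intro h; have := congrArg Subtype.val h; simp at this
    set k : Nat.Primes → ℂ := fun p => if p ∈ ({p2, p3, p5} : Finset Nat.Primes) then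
      bf (x p) p s else 1 with hk
    have e2 : HasProd k (∏ p ∈ ({p2, p3, p5} : Finset Nat.Primes), k p) :=
      hasProd_prod_of_ne_finset_one (fun p hp => if_neg hp)
    have e3 : ∏ p ∈ ({p2, p3, p5} : Finset Nat.Primes), k p =
        bf (x 2) 2 s * (bf (x 3) 3 s * bf (x 5) 5 s) := by
      rw [Finset.prod_insert (by simp [n23, n25]), Finset.prod_insert (by simp [n35]),
        Finset.prod_singleton]
      simp only [hk]
      rw [if_pos (by simp), if_pos (by simp), if_pos (by simp)]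
    rw [e3] at e2
    have e4 := e1.mul e2
    refine hasProd_transfer _ _ _ ?_
    refine (congrArg (fun g => HasProd g _) (funext fun p => ?_)).mp e4
    have hpp : (p : ℕ).Prime := p.2
    have hF : (1 - (ap E15 p : ℂ) * χ ((p : ℕ) : ZMod q) * ((p : ℕ) : ℂ) ^ (-s) +
          (if (p : ℕ) ∣ 15 then 0 else ((p : ℕ) : ℂ)) * (χ ((p : ℕ) : ZMod q)) ^ 2 *
            ((p : ℕ) : ℂ) ^ (-2 * s)) = bf (x p) p s := by
      unfold bf
      rw [hx p hpp]
    rw [hF]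
    have hs1 : 1 < s.re := by linarith
    by_cases hin : p ∈ ({p2, p3, p5} : Finset Nat.Primes)
    · have hk1 : k p = bf (x p) p s := if_pos hin
      rw [hk1]
      simp only [Finset.mem_insert, Finset.mem_singleton] at hin
      have hbad : ((p : ℕ) : ℤ) ∣ 2 * (4 * (-12987 * D ^ 2) ^ 3 + 27 * (-263466 * D ^ 3) ^ 2) := by
        rw [good_iffD hpp]
        rcases hin with rfl | rfl | rfl
        · exact Or.inl rfl
        · exact Or.inr (Or.inl rfl)
        · exact Or.inr (Or.inr (Or.inl rfl))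
      rw [if_neg (not_not.2 hbad)]
      refine inv_mul_cancel₀ ?_
      rcases hin with rfl | rfl | rfl
      · exact bf2_ne0' hc2 hs1
      · exact bf3_ne0' hc3 hs1
      · exact bf5_ne0' hc5 hs1
    · have hk1 : k p = 1 := if_neg hin
      rw [hk1, mul_one]
      simp only [Finset.mem_insert, Finset.mem_singleton, not_or] at hin
      have q2 : (p : ℕ) ≠ 2 := fun h => hin.1 (Subtype.ext h)
      have q3 : (p : ℕ) ≠ 3 := fun h => hin.2.1 (Subtype.ext h)
      have q5 : (p : ℕ) ≠ 5 := fun h => hin.2.2 (Subtype.ext h)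
      by_cases hpM : (p : ℕ) ∣ D.natAbs
      · have hb : ((p : ℕ) : ℤ) ∣ 2 * (4 * (-12987 * D ^ 2) ^ 3 + 27 * (-263466 * D ^ 3) ^ 2) := by
          rw [good_iffD hpp]
          exact Or.inr (Or.inr (Or.inr hpM))
        rw [if_neg (not_not.2 hb), hbad p hpp q2 q3 q5 hpM]
        unfold bf
        simp
      · have hgood' : ¬ ((p : ℕ) : ℤ) ∣ 2 * (4 * (-12987 * D ^ 2) ^ 3 +
            27 * (-263466 * D ^ 3) ^ 2) := by
          rw [good_iffD hpp]
          push Not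
          exact ⟨q2, q3, q5, hpM⟩
        rw [if_pos hgood']
        obtain ⟨hx2, h5⟩ := hgood p hpp q2 q3 q5 hpM
        have hx2' : (x p : ℂ) ^ 2 = 1 := by exact_mod_cast hx2
        have h15' : ¬ (p : ℕ) ∣ 15 := by
          intro h
          have h1 : (p : ℕ) ∣ 3 * 5 := by simpa using h
          rcases (Nat.Prime.dvd_mul hpp).1 h1 with h2 | h2
          · exact q3 ((Nat.prime_dvd_prime_iff_eq hpp Nat.prime_three).1 h2)
          · exact q5 ((Nat.prime_dvd_prime_iff_eq hpp (by norm_num)).1 h2)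
        unfold bf fac
        congr 1
        rw [hx2', if_neg h15', mul_one, p_cpow hpp.ne_zero]
        have h6 : (((p : ℕ) : ℤ) - (Nat.card {q : ZMod p × ZMod p //
                  q.2 ^ 2 = q.1 ^ 3 + ((-12987 * D ^ 2 : ℤ) : ZMod p) * q.1 +
                    ((-263466 * D ^ 3 : ℤ) : ZMod p)} : ℤ)) =
                x p * ap E15 p := h5
        rw [h6]
        push_cast
        ring
  · intro hg
    exact mul_ne_zero hg (mul_ne_zero (bf2_ne0 hc2) (mul_ne_zero (bf3_ne0 hc3) (bf5_ne0 hc5)))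

/-- odd discriminants -/
theorem exists_fO (hlat : S_LAT) (D : ℤ) (hsq : Squarefree D) (h1 : 1 < D.natAbs) (h4 : D % 4 = 1) :
    ∃ (f : ℂ → ℂ) (g1 : ℂ), Differentiable ℂ f ∧
      (∀ s : ℂ, (3 : ℝ) / 2 < s.re →
        HasProd (fun p : {p : ℕ // p.Prime ∧
            ¬ ((p : ℤ) ∣ 2 * (4 * (-12987 * D ^ 2) ^ 3 + 27 * (-263466 * D ^ 3) ^ 2))} =>
          fac (-12987 * D ^ 2) (-263466 * D ^ 3) s p) (f s)) ∧
      (g1 ≠ 0 → f 1 ≠ 0) ∧
      ∃ τ : ℂ, τ * g1 = ∑ a ∈ rr D.natAbs, ((jacobiSym (a : ℤ) D.natAbs : ℤ) : ℂ) *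
        II ((a : ℚ) / D.natAbs) := by
  classical
  obtain ⟨M, hM⟩ : ∃ M : ℕ, M = D.natAbs := ⟨_, rfl⟩
  have hsqM : Squarefree M := by rw [hM]; exact Int.squarefree_natAbs.2 hsq
  have hodd : Odd M := by
    rw [hM]
    refine Nat.odd_iff.2 ?_
    omega
  rw [← hM] at h1
  haveI : NeZero M := ⟨by omega⟩
  set d : OS := ⟨M, hodd, hsqM, h1⟩ with hd
  have hchi : ∀ m : ℕ, H491R3.J.chi d (m : ZMod M) = ((jacobiSym (m : ℤ) M : ℤ) : ℂ) :=
    H491R3.J.chi_natCast d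
  have hpm : ∀ m : ℕ, Nat.Coprime m M → jacobiSym (m : ℤ) M = 1 ∨ jacobiSym (m : ℤ) M = -1 := by
    intro m hm
    refine jacobiSym.eq_one_or_neg_one ?_
    rw [Int.gcd_natCast_natCast]
    exact hm
  have hz : ∀ p : ℕ, p.Prime → p ∣ M → jacobiSym (p : ℤ) M = 0 := by
    intro p hpp hpM
    rw [jacobiSym.eq_zero_iff_not_coprime, Int.gcd_natCast_natCast]
    intro hg
    have := Nat.dvd_gcd (dvd_refl p) hpM
    rw [hg] at this
    exact hpp.one_lt.ne' (Nat.dvd_one.1 this)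
  obtain ⟨f, g1, k1, k2, k3, k4⟩ := exists_fG hlat D (H491R3.J.chi d) (H491R3.J.chi_primitive d)
    (fun p => jacobiSym (p : ℤ) M) (fun p _ => hchi p)
    (fun p hp => by
      by_cases hpM : p ∣ M
      · exact Or.inl (hz p hp hpM)
      · exact Or.inr (hpm p ((Nat.Prime.coprime_iff_not_dvd hp).2 hpM)))
    (fun p hp _ _ _ hpD => hz p hp (by rw [hM]; exact hpD))
    (fun p hp q2 q3 q5 hpD => by
      haveI : Fact p.Prime := ⟨hp⟩
      refine ⟨?_, ?_⟩
      · rcases hpm p ((Nat.Prime.coprime_iff_not_dvd hp).2 (by rw [hM]; exact hpD)) with h | h <;>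
          rw [h] <;> norm_num
      · have h5 := cnt_twistD (-12987) (-263466) h4 p q2 hpD
        rw [cnt_E15 p hp q2 q3, ← hM] at h5
        exact h5)
  refine ⟨f, g1, k1, k2, k3, gaussSum (H491R3.J.chi d)⁻¹ (stdAddChar (N := M)), ?_⟩
  have hinv : (H491R3.J.chi d)⁻¹ = H491R3.J.chi d := H491R3.J.chi_inv d
  rw [k4, hinv, ← hM, sum_rrC]
  refine Finset.sum_congr rfl fun u _ => ?_
  rw [← hchi, ZMod.natCast_zmod_val]

/-- the central value does not vanish if the sum of the symbols does not: real character sums -/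
theorem sum_ne {ι : Type} (S : Finset ι) (w : ι → ℤ) (r : ι → ℚ) {sp sm : ℚ → ℤ} {Op Om : ℝ}
    (hOp : 0 < Op) (hOm : 0 < Om)
    (hs : ∀ r : ℚ, (4 : ℂ) * II r = sp r * Op + 2 * sm r * Om * Complex.I)
    (hne : ∑ a ∈ S, w a * sp (r a) ≠ 0 ∨ ∑ a ∈ S, w a * sm (r a) ≠ 0) :
    ∑ a ∈ S, (w a : ℂ) * II (r a) ≠ 0 := by
  intro h0
  have h2 : ((∑ a ∈ S, w a * sp (r a) : ℤ) : ℂ) * Op +
      ((∑ a ∈ S, w a * sm (r a) : ℤ) : ℂ) * (2 * Om) * Complex.I = 0 := by
    have h3 : (4 : ℂ) * ∑ a ∈ S, (w a : ℂ) * II (r a) =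
        ((∑ a ∈ S, w a * sp (r a) : ℤ) : ℂ) * Op +
          ((∑ a ∈ S, w a * sm (r a) : ℤ) : ℂ) * (2 * Om) * Complex.I := by
      push_cast
      rw [Finset.mul_sum, Finset.sum_mul, Finset.sum_mul, Finset.sum_mul,
        ← Finset.sum_add_distrib]
      refine Finset.sum_congr rfl fun a _ => ?_
      have := hs (r a)
      linear_combination (w a : ℂ) * this
    rw [← h3, h0, mul_zero]
  have h3 := congrArg Complex.re h2
  have h4' := congrArg Complex.im h2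
  simp only [Complex.add_re, Complex.mul_re, Complex.intCast_re, Complex.ofReal_re,
    Complex.intCast_im, Complex.ofReal_im, Complex.mul_im, Complex.I_re, Complex.I_im,
    Complex.add_im, Complex.zero_re, Complex.zero_im] at h3 h4'
  norm_num at h3 h4'
  rcases hne with hne | hne
  · apply hne
    rcases h3 with h3 | h3
    · exact_mod_cast h3
    · exact absurd h3 hOp.ne'
  · apply hne
    rcases h4' with h4' | h4'
    · exact_mod_cast h4'
    · exact absurd h4' hOm.ne'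

/-- nonvanishing for odd discriminants (no condition at `3` and `5`) -/
theorem exists_f_neO (hlat : S_LAT) (D : ℤ) (hsq : Squarefree D) (h1 : 1 < D.natAbs) (h4 : D % 4 = 1)
    {sp sm : ℚ → ℤ} {Op Om : ℝ} (hOp : 0 < Op) (hOm : 0 < Om)
    (hs : ∀ r : ℚ, (4 : ℂ) * II r = sp r * Op + 2 * sm r * Om * Complex.I)
    (hne : SS sp D.natAbs D.natAbs ≠ 0 ∨ SS sm D.natAbs D.natAbs ≠ 0) :
    ∃ f : ℂ → ℂ, Differentiable ℂ f ∧
      (∀ s : ℂ, (3 : ℝ) / 2 < s.re →
        HasProd (fun p : {p : ℕ // p.Prime ∧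
            ¬ ((p : ℤ) ∣ 2 * (4 * (-12987 * D ^ 2) ^ 3 + 27 * (-263466 * D ^ 3) ^ 2))} =>
          fac (-12987 * D ^ 2) (-263466 * D ^ 3) s p) (f s)) ∧ f 1 ≠ 0 := by
  obtain ⟨f, g1, hf1, hf2, hf3, τ, hτ⟩ := exists_fO hlat D hsq h1 h4
  refine ⟨f, hf1, hf2, hf3 ?_⟩
  rintro rfl
  rw [mul_zero] at hτ
  have h5 := sum_ne (rr D.natAbs) (fun a => jacobiSym (a : ℤ) D.natAbs)
    (fun a => (a : ℚ) / D.natAbs) hOp hOm hs (by simpa [SS] using hne)
  exact h5 hτ.symm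

end Pool.Agent.N974.MF
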