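import Pool.Agent.N974.MF.Eta
import Pool.Agent.W97.MT.AL

/-!
The Atkin-Lehner transformations of the eta products on `X_0(15)`.
-/

set_option autoImplicit false

open UpperHalfPlane MatrixGroups CongruenceSubgroup Filter Topology
open scoped ModularForm Pointwise

namespace Pool.Agent.N974.MF

open Pool.Agent.W97.TW
open Pool.Agent.W97.MT (qq tt tt_ne qq_ne tt_pow norm_qq norm_qq_lt eta_mul eta_one G_mul Q_ne
  Q_ne_pow G_ne im_mul ze_dvd I4 z_ne)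

lemma ze12k (k : ℤ) : ze ^ (12 * k) = 1 := by
  rw [zpow_mul, ze_12, one_zpow]

section w15

variable {z : ℂ} (hz : 0 < z.im)
include hz

lemma w15_pos : 0 < (-1 / (15 * z) : ℂ).im := by
  have h := (im_moebius (a := 0) (b := -1) (c := 1) (d := 0) (by norm_num)
    (im_mul hz 15 (by norm_num))).1
  simpa using h

lemma w15_G : G (-1 / (15 * z)) = -Complex.I * (15 * z) * G (15 * z) ∧
    G (3 * (-1 / (15 * z))) = -Complex.I * (5 * z) * G (5 * z) ∧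
    G (5 * (-1 / (15 * z))) = -Complex.I * (3 * z) * G (3 * z) ∧
    G (15 * (-1 / (15 * z))) = -Complex.I * z * G z := by
  have h0 := z_ne hz
  refine ⟨G_S (im_mul hz 15 (by norm_num)), ?_, ?_, ?_⟩
  · rw [show (3 : ℂ) * (-1 / (15 * z)) = -1 / (5 * z) by field_simp; norm_num]
    exact G_S (im_mul hz 5 (by norm_num))
  · rw [show (5 : ℂ) * (-1 / (15 * z)) = -1 / (3 * z) by field_simp; norm_num]
    exact G_S (im_mul hz 3 (by norm_num))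
  · rw [show (15 : ℂ) * (-1 / (15 * z)) = -1 / z by field_simp]
    exact G_S hz

lemma ff_w15 : ff (-1 / (15 * z)) ^ 2 = (15 * z ^ 2) ^ 2 * ff z ^ 2 := by
  obtain ⟨e1, e3, e5, e15⟩ := w15_G hz
  rw [ff_sq, ff_sq]
  unfold Gs
  simp only [zpow_one]
  rw [e1, e3, e5, e15]
  linear_combination (225 * z ^ 4 * G z * G (3 * z) * G (5 * z) * G (15 * z)) * I4

lemma X1_w15 : X1 (-1 / (15 * z)) ^ 2 = 81 * ((Q (qq z) ^ 5)⁻¹ * Q (qq z ^ 3) ^ 5 * Q (qq z ^ 5) *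
    (Q (qq z ^ 15))⁻¹) ^ 2 := by
  obtain ⟨e1, e3, e5, e15⟩ := w15_G hz
  have h0 := z_ne hz
  have g1 := G_mul 1 z
  have g3 := G_mul 3 z
  have g5 := G_mul 5 z
  have g15 := G_mul 15 z
  push_cast at g1 g3 g5 g15
  rw [one_mul, pow_one] at g1
  have hq := norm_qq_lt hz
  have n1 := Q_ne hq
  have n15 := Q_ne_pow hq (d := 15) (by norm_num)
  have ht := tt_ne z
  rw [X1_sq]
  unfold Gs
  rw [e1, e3, e5, e15, g1, g3, g5, g15, zpow_neg_one, zpow_one, zpow_neg]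
  norm_cast
  have hI : Complex.I ≠ 0 := Complex.I_ne_zero
  field_simp
  ring_nf

lemma V2_w15 : V2 (-1 / (15 * z)) = qq z ^ 2 * (1125 * ((Q (qq z) ^ 4)⁻¹ * Q (qq z ^ 3) *
    Q (qq z ^ 5) ^ 2 * Q (qq z ^ 15)) ^ 2) := by
  obtain ⟨e1, e3, e5, e15⟩ := w15_G hz
  have h0 := z_ne hz
  have g1 := G_mul 1 z
  have g3 := G_mul 3 z
  have g5 := G_mul 5 z
  have g15 := G_mul 15 z
  push_cast at g1 g3 g5 g15
  rw [one_mul, pow_one] at g1
  have hq := norm_qq_lt hz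
  have n1 := Q_ne hq
  have n15 := Q_ne_pow hq (d := 15) (by norm_num)
  have ht := tt_ne z
  rw [V2_eq]
  unfold Gs
  have hq2 : qq z ^ 2 = tt z ^ 48 := by rw [← tt_pow]; ring
  rw [hq2, e1, e3, e5, e15, g1, g3, g5, g15, zpow_one, zpow_one, zpow_neg]
  norm_cast
  have hI : Complex.I ≠ 0 := Complex.I_ne_zero
  field_simp
  ring_nf

end w15

section w5

variable {z : ℂ} (hz : 0 < z.im)
include hz

lemma w5_aux : (3 * z - 1 : ℂ) ≠ 0 := by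
  intro h
  have := congrArg Complex.im h
  simp at this
  exact hz.ne' this

lemma w5_pos : 0 < ((5 * z - 2) / (15 * z - 5) : ℂ).im := by
  have h := (im_moebius (a := 1) (b := -2) (c := 3) (d := -5) (by norm_num)
    (im_mul hz 5 (by norm_num))).1
  push_cast at h
  convert h using 2
  congr 1 <;> ring

lemma w5_G : G ((5 * z - 2) / (15 * z - 5)) = ze ^ (7 : ℤ) * (15 * z - 5) * G (5 * z) ∧
    G (3 * ((5 * z - 2) / (15 * z - 5))) = ze ^ (5 : ℤ) * (15 * z - 5) * G (15 * z) ∧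
    G (5 * ((5 * z - 2) / (15 * z - 5))) = ze ^ (11 : ℤ) * (3 * z - 1) * G z ∧
    G (15 * ((5 * z - 2) / (15 * z - 5))) = ze ^ (1 : ℤ) * (3 * z - 1) * G (3 * z) := by
  have h0 := w5_aux hz
  have h5 : (15 * z - 5 : ℂ) = 5 * (3 * z - 1) := by ring
  have e1 := G_moebius (a := 1) (b := -2) (c := 3) (d := -5) (by norm_num)
    (im_mul hz 5 (by norm_num))
  have e3 := G_moebius (a := 1) (b := -6) (c := 1) (d := -5) (by norm_num)
    (im_mul hz 15 (by norm_num))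
  have e5 := G_moebius (a := 5) (b := -2) (c := 3) (d := -1) (by norm_num) hz
  have e15 := G_moebius (a := 5) (b := -6) (c := 1) (d := -1) (by norm_num)
    (im_mul hz 3 (by norm_num))
  rw [ze_congr (m := kap (1 : ℤ) (-2) 3 (-5)) (n := 7) (by norm_num [kap])] at e1
  rw [ze_congr (m := kap (1 : ℤ) (-6) 1 (-5)) (n := 5) (by norm_num [kap])] at e3
  rw [ze_congr (m := kap (5 : ℤ) (-2) 3 (-1)) (n := 11) (by norm_num [kap])] at e5
  rw [ze_congr (m := kap (5 : ℤ) (-6) 1 (-1)) (n := 1) (by norm_num [kap])] at e15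
  push_cast at e1 e3 e5 e15
  refine ⟨?_, ?_, ?_, ?_⟩
  · rw [show (5 * z - 2) / (15 * z - 5) = (1 * (5 * z) + -2) / (3 * (5 * z) + -5) by
      congr 1 <;> ring, e1]
    ring
  · rw [show 3 * ((5 * z - 2) / (15 * z - 5)) = (1 * (15 * z) + -6) / (1 * (15 * z) + -5) by
      rw [← mul_div_assoc]; congr 1 <;> ring, e3]
    ring
  · rw [show 5 * ((5 * z - 2) / (15 * z - 5)) = (5 * z + -2) / (3 * z + -1) by
      rw [h5, show (3 * z + -1 : ℂ) = 3 * z - 1 by ring]; field_simp; ring, e5]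
    ring
  · rw [show 15 * ((5 * z - 2) / (15 * z - 5)) = (5 * (3 * z) + -6) / (1 * (3 * z) + -1) by
      rw [h5, show (1 * (3 * z) + -1 : ℂ) = 3 * z - 1 by ring]; field_simp; ring, e15]
    ring

lemma ff_w5 : ff ((5 * z - 2) / (15 * z - 5)) ^ 2 = (5 * (3 * z - 1) ^ 2) ^ 2 * ff z ^ 2 := by
  obtain ⟨e1, e3, e5, e15⟩ := w5_G hz
  rw [ff_sq, ff_sq]
  unfold Gs
  simp only [zpow_one]
  rw [e1, e3, e5, e15]
  have h24 : ze ^ (7 : ℤ) * ze ^ (5 : ℤ) * ze ^ (11 : ℤ) * ze ^ (1 : ℤ) = 1 := by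
    rw [← zpow_add₀ ze_ne, ← zpow_add₀ ze_ne, ← zpow_add₀ ze_ne]
    exact ze12k 2
  linear_combination (25 * (3 * z - 1) ^ 4 * G z * G (3 * z) * G (5 * z) * G (15 * z)) * h24

lemma Gs_w5 (s1 s3 s5 s15 : ℤ) : Gs s1 s3 s5 s15 ((5 * z - 2) / (15 * z - 5)) =
    ze ^ (7 * s1 + 5 * s3 + 11 * s5 + 1 * s15) * 5 ^ (s1 + s3) *
      (3 * z - 1) ^ (s1 + s3 + s5 + s15) * (G (5 * z) ^ s1 * G (15 * z) ^ s3 * G z ^ s5 *
      G (3 * z) ^ s15) := by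
  obtain ⟨e1, e3, e5, e15⟩ := w5_G hz
  have h0 := w5_aux hz
  have h5 : (15 * z - 5 : ℂ) = 5 * (3 * z - 1) := by ring
  unfold Gs
  rw [e1, e3, e5, e15, h5]
  have h5' : (5 : ℂ) ≠ 0 := by norm_num
  simp only [mul_zpow, zpow_add₀ h0, zpow_add₀ h5', zpow_add₀ ze_ne, zpow_mul]
  ring

lemma X1_w5 : X1 ((5 * z - 2) / (15 * z - 5)) ^ 2 = (Q (qq z) ^ 5 * (Q (qq z ^ 3) ^ 5)⁻¹ *
    (Q (qq z ^ 5))⁻¹ * (Q (qq z ^ 15))) ^ 2 := by
  have h0 := w5_aux hz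
  have g1 := G_mul 1 z
  have g3 := G_mul 3 z
  have g5 := G_mul 5 z
  have g15 := G_mul 15 z
  push_cast at g1 g3 g5 g15
  rw [one_mul, pow_one] at g1
  have hq := norm_qq_lt hz
  have n1 := Q_ne hq
  have n3 := Q_ne_pow hq (d := 3) (by norm_num)
  have n5 := Q_ne_pow hq (d := 5) (by norm_num)
  have n15 := Q_ne_pow hq (d := 15) (by norm_num)
  have ht := tt_ne z
  rw [X1_sq, Gs_w5 hz, g1, g3, g5, g15]
  have e : ze ^ ((7 : ℤ) * -1 + 5 * 1 + 11 * 5 + 1 * -5) = 1 := by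
    rw [show ((7 : ℤ) * -1 + 5 * 1 + 11 * 5 + 1 * -5) = 12 * 4 by norm_num]; exact ze12k 4
  rw [e]
  norm_num
  field_simp

lemma V2_w5 : V2 ((5 * z - 2) / (15 * z - 5)) = qq z ^ 2 * (125 * (Q (qq z) *
    (Q (qq z ^ 3) ^ 4)⁻¹ * Q (qq z ^ 5) * (Q (qq z ^ 15)) ^ 2) ^ 2) := by
  have h0 := w5_aux hz
  have g1 := G_mul 1 z
  have g3 := G_mul 3 z
  have g5 := G_mul 5 z
  have g15 := G_mul 15 z
  push_cast at g1 g3 g5 g15
  rw [one_mul, pow_one] at g1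
  have hq := norm_qq_lt hz
  have n1 := Q_ne hq
  have n3 := Q_ne_pow hq (d := 3) (by norm_num)
  have n5 := Q_ne_pow hq (d := 5) (by norm_num)
  have n15 := Q_ne_pow hq (d := 15) (by norm_num)
  have ht := tt_ne z
  have hq2 : qq z ^ 2 = tt z ^ 48 := by rw [← tt_pow]; ring
  rw [V2_eq, Gs_w5 hz, hq2, g1, g3, g5, g15]
  have e : ze ^ ((7 : ℤ) * 1 + 5 * 2 + 11 * 1 + 1 * -4) = 1 := by
    rw [show ((7 : ℤ) * 1 + 5 * 2 + 11 * 1 + 1 * -4) = 12 * 2 by norm_num]; exact ze12k 2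
  rw [e]
  norm_num
  field_simp

end w5

section w3

variable {z : ℂ} (hz : 0 < z.im)
include hz

lemma w3_aux : (5 * z + 2 : ℂ) ≠ 0 := by
  intro h
  have := congrArg Complex.im h
  simp at this
  exact hz.ne' this

lemma w3_pos : 0 < ((3 * z + 1) / (15 * z + 6) : ℂ).im := by
  have h := (im_moebius (a := 1) (b := 1) (c := 5) (d := 6) (by norm_num)
    (im_mul hz 3 (by norm_num))).1
  push_cast at h
  convert h using 2
  congr 1 <;> ring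

lemma w3_G : G ((3 * z + 1) / (15 * z + 6)) = ze ^ (8 : ℤ) * (15 * z + 6) * G (3 * z) ∧
    G (3 * ((3 * z + 1) / (15 * z + 6))) = ze ^ (10 : ℤ) * (5 * z + 2) * G z ∧
    G (5 * ((3 * z + 1) / (15 * z + 6))) = ze ^ (4 : ℤ) * (15 * z + 6) * G (15 * z) ∧
    G (15 * ((3 * z + 1) / (15 * z + 6))) = ze ^ (2 : ℤ) * (5 * z + 2) * G (5 * z) := by
  have h0 := w3_aux hz
  have h5 : (15 * z + 6 : ℂ) = 3 * (5 * z + 2) := by ring
  have e1 := G_moebius (a := 1) (b := 1) (c := 5) (d := 6) (by norm_num)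
    (im_mul hz 3 (by norm_num))
  have e3 := G_moebius (a := 3) (b := 1) (c := 5) (d := 2) (by norm_num) hz
  have e5 := G_moebius (a := 1) (b := 5) (c := 1) (d := 6) (by norm_num)
    (im_mul hz 15 (by norm_num))
  have e15 := G_moebius (a := 3) (b := 5) (c := 1) (d := 2) (by norm_num)
    (im_mul hz 5 (by norm_num))
  rw [ze_congr (m := kap (1 : ℤ) 1 5 6) (n := 8) (by norm_num [kap])] at e1
  rw [ze_congr (m := kap (3 : ℤ) 1 5 2) (n := 10) (by norm_num [kap])] at e3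
  rw [ze_congr (m := kap (1 : ℤ) 5 1 6) (n := 4) (by norm_num [kap])] at e5
  rw [ze_congr (m := kap (3 : ℤ) 5 1 2) (n := 2) (by norm_num [kap])] at e15
  push_cast at e1 e3 e5 e15
  refine ⟨?_, ?_, ?_, ?_⟩
  · rw [show (3 * z + 1) / (15 * z + 6) = (1 * (3 * z) + 1) / (5 * (3 * z) + 6) by
      congr 1 <;> ring, e1]
    ring
  · rw [show 3 * ((3 * z + 1) / (15 * z + 6)) = (3 * z + 1) / (5 * z + 2) by
      rw [h5]; field_simp, e3]
  · rw [show 5 * ((3 * z + 1) / (15 * z + 6)) = (1 * (15 * z) + 5) / (1 * (15 * z) + 6) by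
      rw [← mul_div_assoc]; congr 1 <;> ring, e5]
    ring
  · rw [show 15 * ((3 * z + 1) / (15 * z + 6)) = (3 * (5 * z) + 5) / (1 * (5 * z) + 2) by
      rw [h5, show (1 * (5 * z) + 2 : ℂ) = 5 * z + 2 by ring]; field_simp; ring, e15]
    ring

lemma ff_w3 : ff ((3 * z + 1) / (15 * z + 6)) ^ 2 = (3 * (5 * z + 2) ^ 2) ^ 2 * ff z ^ 2 := by
  obtain ⟨e1, e3, e5, e15⟩ := w3_G hz
  rw [ff_sq, ff_sq]
  unfold Gs
  simp only [zpow_one]
  rw [e1, e3, e5, e15]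
  have h24 : ze ^ (8 : ℤ) * ze ^ (10 : ℤ) * ze ^ (4 : ℤ) * ze ^ (2 : ℤ) = 1 := by
    rw [← zpow_add₀ ze_ne, ← zpow_add₀ ze_ne, ← zpow_add₀ ze_ne]
    exact ze12k 2
  linear_combination (9 * (5 * z + 2) ^ 4 * G z * G (3 * z) * G (5 * z) * G (15 * z)) * h24

lemma Gs_w3 (s1 s3 s5 s15 : ℤ) : Gs s1 s3 s5 s15 ((3 * z + 1) / (15 * z + 6)) =
    ze ^ (8 * s1 + 10 * s3 + 4 * s5 + 2 * s15) * 3 ^ (s1 + s5) *
      (5 * z + 2) ^ (s1 + s3 + s5 + s15) * (G (3 * z) ^ s1 * G z ^ s3 * G (15 * z) ^ s5 *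
      G (5 * z) ^ s15) := by
  obtain ⟨e1, e3, e5, e15⟩ := w3_G hz
  have h0 := w3_aux hz
  have h5 : (15 * z + 6 : ℂ) = 3 * (5 * z + 2) := by ring
  unfold Gs
  rw [e1, e3, e5, e15, h5]
  have h3' : (3 : ℂ) ≠ 0 := by norm_num
  simp only [mul_zpow, zpow_add₀ h0, zpow_add₀ h3', zpow_add₀ ze_ne, zpow_mul]
  ring

lemma X1_w3 : X1 ((3 * z + 1) / (15 * z + 6)) ^ 2 = qq z ^ 4 * (81 * (Q (qq z) *
    (Q (qq z ^ 3))⁻¹ * (Q (qq z ^ 5) ^ 5)⁻¹ * (Q (qq z ^ 15)) ^ 5) ^ 2) := by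
  have h0 := w3_aux hz
  have g1 := G_mul 1 z
  have g3 := G_mul 3 z
  have g5 := G_mul 5 z
  have g15 := G_mul 15 z
  push_cast at g1 g3 g5 g15
  rw [one_mul, pow_one] at g1
  have hq := norm_qq_lt hz
  have n1 := Q_ne hq
  have n3 := Q_ne_pow hq (d := 3) (by norm_num)
  have n5 := Q_ne_pow hq (d := 5) (by norm_num)
  have n15 := Q_ne_pow hq (d := 15) (by norm_num)
  have ht := tt_ne z
  have hq2 : qq z ^ 4 = tt z ^ 96 := by rw [← tt_pow]; ring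
  rw [X1_sq, Gs_w3 hz, hq2, g1, g3, g5, g15]
  have e : ze ^ ((8 : ℤ) * -1 + 10 * 1 + 4 * 5 + 2 * -5) = 1 := by
    rw [show ((8 : ℤ) * -1 + 10 * 1 + 4 * 5 + 2 * -5) = 12 * 1 by norm_num]; exact ze12k 1
  rw [e]
  norm_num
  field_simp

lemma V2_w3 : V2 ((3 * z + 1) / (15 * z + 6)) = 9 * (Q (qq z) ^ 2 *
    (Q (qq z ^ 3)) * (Q (qq z ^ 5) ^ 4)⁻¹ * (Q (qq z ^ 15))) ^ 2 := by
  have h0 := w3_aux hz
  have g1 := G_mul 1 z
  have g3 := G_mul 3 z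
  have g5 := G_mul 5 z
  have g15 := G_mul 15 z
  push_cast at g1 g3 g5 g15
  rw [one_mul, pow_one] at g1
  have hq := norm_qq_lt hz
  have n1 := Q_ne hq
  have n3 := Q_ne_pow hq (d := 3) (by norm_num)
  have n5 := Q_ne_pow hq (d := 5) (by norm_num)
  have n15 := Q_ne_pow hq (d := 15) (by norm_num)
  have ht := tt_ne z
  rw [V2_eq, Gs_w3 hz, g1, g3, g5, g15]
  have e : ze ^ ((8 : ℤ) * 1 + 10 * 2 + 4 * 1 + 2 * -4) = 1 := by
    rw [show ((8 : ℤ) * 1 + 10 * 2 + 4 * 1 + 2 * -4) = 12 * 2 by norm_num]; exact ze12k 2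
  rw [e]
  norm_num
  field_simp

end w3

end Pool.Agent.N974.MF
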