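import Pool.Agent.N974.MF.Hor

/-!
The action of the group and of the Atkin-Lehner maps on the integrals.
-/

set_option autoImplicit false

open Filter Topology MeasureTheory Set

namespace Pool.Agent.N974.MF

open Pool.Agent.W97.TW
open Pool.Agent.W97.MT (qq tt tt_ne qq_ne tt_pow norm_qq norm_qq_lt im_mul z_ne H_open
  QV iI iI_pos iI_gt eq_or_eq_neg tpi_ne hasDerivAt_qq const_of_deriv line_im line_re)

lemma im_inv (z r : ℂ) (hr : r.im = 0) : (-(z - r)⁻¹).im = z.im / Complex.normSq (z - r) := by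
  rw [Complex.neg_im, Complex.inv_im, Complex.sub_im, hr, sub_zero]
  ring

lemma iI_neBot : (iI).NeBot := by
  unfold iI
  refine comap_neBot_iff.2 fun t ht => ?_
  obtain ⟨T, hT⟩ := mem_atTop_sets.1 ht
  exact ⟨(T : ℂ) * Complex.I, hT _ (by simp)⟩

lemma den_ne {C D : ℝ} (h : C ≠ 0 ∨ D ≠ 0) {z : ℂ} (hz : 0 < z.im) : (C : ℂ) * z + D ≠ 0 := by
  intro h0
  have h1 := congrArg Complex.im h0
  simp at h1
  rcases h1 with h1 | h1
  · subst h1
    simp at h0
    rcases h with h | h
    · exact h rfl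
    · exact h h0
  · exact hz.ne' h1

section mob

variable {A B C D : ℝ} (hN : 0 < A * D - B * C)
include hN

lemma mob_hor {r : ℝ} (h0 : C * r + D ≠ 0) :
    Tendsto (fun z : ℂ => (A * z + B) / (C * z + D)) (Hor (r : ℂ))
      (Hor (((A * r + B) / (C * r + D) : ℝ) : ℂ)) := by
  have hcd : C ≠ 0 ∨ D ≠ 0 := by
    by_contra h
    push Not at h
    rw [h.1, h.2] at hN
    simp at hN
  set N : ℝ := A * D - B * C with hNe
  have hNc : (N : ℂ) ≠ 0 := by exact_mod_cast hN.ne'
  have h0c : (C : ℂ) * r + D ≠ 0 := by exact_mod_cast h0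
  unfold Hor
  rw [tendsto_comap_iff]
  have key : ∀ z : ℂ, 0 < z.im →
      (fun z : ℂ => z.im / Complex.normSq (z - (((A * r + B) / (C * r + D) : ℝ) : ℂ)))
        ((A * z + B) / (C * z + D)) =
        ((C * r + D) ^ 2 / N) * (z.im / Complex.normSq (z - r)) := by
    intro z hz
    have hden := den_ne hcd hz
    have hzr : z - (r : ℂ) ≠ 0 := ne_of_im (by simp) hz
    simp only
    rw [← im_inv _ _ (Complex.ofReal_im _), ← im_inv _ _ (Complex.ofReal_im _)]
    have e : -((A * z + B) / (C * z + D) - (((A * r + B) / (C * r + D) : ℝ) : ℂ))⁻¹ =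
        ((-(C * (C * r + D) / N) : ℝ) : ℂ) + (((C * r + D) ^ 2 / N : ℝ) : ℂ) * (-(z - r)⁻¹) := by
      have e1 : (A * z + B) / (C * z + D) - (((A * r + B) / (C * r + D) : ℝ) : ℂ) =
          N * (z - r) / ((C * z + D) * (C * r + D)) := by
        rw [hNe]
        push_cast
        rw [div_sub_div _ _ hden h0c, div_eq_div_iff (mul_ne_zero hden h0c)
          (mul_ne_zero hden h0c)]
        ring
      rw [e1]
      push_cast
      field_simp
      ring
    rw [e, Complex.add_im, Complex.ofReal_im, zero_add, Complex.im_ofReal_mul]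
  have h1 : Tendsto (fun z : ℂ => ((C * r + D) ^ 2 / N) * (z.im / Complex.normSq (z - r)))
      (comap (fun z : ℂ => z.im / Complex.normSq (z - r)) atTop) atTop :=
    tendsto_comap.const_mul_atTop (by positivity)
  refine h1.congr' ?_
  filter_upwards [hor_pos (r : ℂ)] with z hz
  exact (key z hz).symm

lemma mob_inf_hor (hC : C ≠ 0) :
    Tendsto (fun z : ℂ => (A * z + B) / (C * z + D)) iI (Hor ((A / C : ℝ) : ℂ)) := by
  set N : ℝ := A * D - B * C with hNe
  have hNc : (N : ℂ) ≠ 0 := by exact_mod_cast hN.ne'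
  have hCc : (C : ℂ) ≠ 0 := by exact_mod_cast hC
  unfold Hor
  rw [tendsto_comap_iff]
  have key : ∀ z : ℂ, 0 < z.im →
      (fun z : ℂ => z.im / Complex.normSq (z - ((A / C : ℝ) : ℂ)))
        ((A * z + B) / (C * z + D)) = (C ^ 2 / N) * z.im := by
    intro z hz
    have hden := den_ne (D := D) (Or.inl hC) hz
    simp only
    rw [← im_inv _ _ (by simp)]
    have e : -((A * z + B) / (C * z + D) - ((A / C : ℝ) : ℂ))⁻¹ =
        ((C * D / N : ℝ) : ℂ) + ((C ^ 2 / N : ℝ) : ℂ) * z := by
      have e1 : (A * z + B) / (C * z + D) - ((A / C : ℝ) : ℂ) =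
          -N / ((C * z + D) * C) := by
        rw [hNe]
        push_cast
        rw [div_sub_div _ _ hden hCc, div_eq_div_iff (mul_ne_zero hden hCc)
          (mul_ne_zero hden hCc)]
        ring
      rw [e1]
      push_cast
      field_simp
      ring
    rw [e, Complex.add_im, Complex.ofReal_im, zero_add, Complex.im_ofReal_mul]
  have h1 : Tendsto (fun z : ℂ => (C ^ 2 / N) * z.im) iI atTop := by
    unfold iI
    exact tendsto_comap.const_mul_atTop (by positivity)
  refine h1.congr' ?_
  filter_upwards [iI_pos] with z hz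
  exact (key z hz).symm

lemma mob_hor_inf {r : ℝ} (hC : C ≠ 0) (h0 : C * r + D = 0) :
    Tendsto (fun z : ℂ => (A * z + B) / (C * z + D)) (Hor (r : ℂ)) iI := by
  set N : ℝ := A * D - B * C with hNe
  have hNc : (N : ℂ) ≠ 0 := by exact_mod_cast hN.ne'
  have hCc : (C : ℂ) ≠ 0 := by exact_mod_cast hC
  have hD : D = -(C * r) := by linarith
  unfold iI
  rw [tendsto_comap_iff]
  have key : ∀ z : ℂ, 0 < z.im →
      ((A * z + B) / (C * z + D)).im = (N / C ^ 2) * (z.im / Complex.normSq (z - r)) := by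
    intro z hz
    have hzr : z - (r : ℂ) ≠ 0 := ne_of_im (by simp) hz
    rw [← im_inv _ _ (by simp)]
    have e : (A * z + B) / (C * z + D) =
        ((A / C : ℝ) : ℂ) + ((N / C ^ 2 : ℝ) : ℂ) * (-(z - r)⁻¹) := by
      have e1 : (C : ℂ) * z + D = C * (z - r) := by
        rw [hD]; push_cast; ring
      rw [e1, hNe, hD]
      push_cast
      field_simp
      ring
    rw [e, Complex.add_im, Complex.ofReal_im, zero_add, Complex.im_ofReal_mul]
  have h1 : Tendsto (fun z : ℂ => (N / C ^ 2) * (z.im / Complex.normSq (z - r)))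
      (Hor (r : ℂ)) atTop := by
    unfold Hor
    exact tendsto_comap.const_mul_atTop (by positivity)
  refine h1.congr' ?_
  filter_upwards [hor_pos (r : ℂ)] with z hz
  exact (key z hz).symm

/-- the values under a map which multiplies the form by a sign -/
lemma mob_II {ε p : ℂ} (hF : ∀ z : ℂ, 0 < z.im → F ((A * z + B) / (C * z + D)) = ε * F z + p)
    (r r' : ℚ) (h0 : C * r + D ≠ 0) (hr' : (r' : ℝ) * (C * r + D) = A * r + B) :
    II r' = ε * II r + p := by
  have h1 := mob_hor hN h0
  have e : (((A * r + B) / (C * r + D) : ℝ) : ℂ) = ((r' : ℝ) : ℂ) := by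
    rw [← hr']
    congr 1
    field_simp
  rw [e] at h1
  have h2 := (F_hor r').comp (y := Hor ((r' : ℝ) : ℂ)) (x := Hor ((r : ℝ) : ℂ)) (by simpa using h1)
  have h3 := ((F_hor r).const_mul ε).add_const p
  have : (Hor (r : ℂ)).NeBot := hor_neBot _ (by simp)
  refine tendsto_nhds_unique (l := Hor (r : ℂ)) (f := fun z => F ((A * z + B) / (C * z + D)))
    (by simpa [Function.comp_def] using h2) (h3.congr' ?_)
  filter_upwards [hor_pos (r : ℂ)] with z hz
  exact (hF z hz).symm

lemma mob_II_inf {ε p : ℂ} (hF : ∀ z : ℂ, 0 < z.im → F ((A * z + B) / (C * z + D)) = ε * F z + p)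
    (r' : ℚ) (hC : C ≠ 0) (hr' : (r' : ℝ) * C = A) : II r' = p := by
  have h1 := mob_inf_hor hN hC
  have e : ((A / C : ℝ) : ℂ) = ((r' : ℝ) : ℂ) := by
    rw [← hr']
    congr 1
    field_simp
  rw [e] at h1
  have h2 := (F_hor r').comp (y := Hor ((r' : ℝ) : ℂ)) (x := iI) (by simpa using h1)
  have h3 := (F_QV.tendsto.const_mul ε).add_const p
  rw [mul_zero, zero_add] at h3
  have := iI_neBot
  refine tendsto_nhds_unique h2 (h3.congr' ?_)
  filter_upwards [iI_pos] with z hz
  exact (hF z hz).symm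

lemma mob_II_pole {ε p : ℂ} (hF : ∀ z : ℂ, 0 < z.im → F ((A * z + B) / (C * z + D)) = ε * F z + p)
    (r : ℚ) (hC : C ≠ 0) (h0 : C * r + D = 0) : ε * II r + p = 0 := by
  have h1 := mob_hor_inf hN hC h0
  have h2 := F_QV.tendsto.comp h1
  have h3 := ((F_hor r).const_mul ε).add_const p
  have : (Hor (r : ℂ)).NeBot := hor_neBot _ (by simp)
  refine tendsto_nhds_unique (l := Hor (r : ℂ)) (f := fun z => F ((A * z + B) / (C * z + D)))
    (h3.congr' ?_) (by simpa [Function.comp_def] using h2)
  filter_upwards [hor_pos (r : ℂ)] with z hz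
  exact (hF z hz).symm

end mob

section gamma

variable {a b c d : ℤ} (hdet : a * d - b * (15 * c) = 1) {p : ℂ}
  (hp : ∀ z : ℂ, 0 < z.im → F ((a * z + b) / (15 * c * z + d)) = F z + p)
include hdet hp

/-- the action of the group -/
theorem II_gamma (r : ℚ) (h0 : 15 * c * r + d ≠ 0) :
    II ((a * r + b) / (15 * c * r + d)) = II r + p := by
  have h := mob_II (A := a) (B := b) (C := 15 * c) (D := d) (ε := 1) (p := p)
    (by exact_mod_cast (by rw [hdet]; norm_num : (0 : ℤ) < a * d - b * (15 * c)))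
    (fun z hz => by
      have := hp z hz
      push_cast
      rw [one_mul]
      exact this) r ((a * r + b) / (15 * c * r + d))
    (by exact_mod_cast h0) (by
      have h0' : (15 * (c : ℝ) * r + d) ≠ 0 := by exact_mod_cast h0
      push_cast
      rw [div_mul_cancel₀ _ h0'])
  rw [h, one_mul]

theorem II_gamma_inf (hc : c ≠ 0) : II ((a : ℚ) / (15 * c)) = p := by
  have hc' : (c : ℝ) ≠ 0 := by exact_mod_cast hc
  exact mob_II_inf (A := a) (B := b) (C := 15 * c) (D := d) (ε := 1) (p := p)
    (by exact_mod_cast (by rw [hdet]; norm_num : (0 : ℤ) < a * d - b * (15 * c)))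
    (fun z hz => by
      have := hp z hz
      push_cast
      rw [one_mul]
      exact this) ((a : ℚ) / (15 * c)) (by positivity) (by
      push_cast
      field_simp)

theorem II_gamma_pole (r : ℚ) (hc : c ≠ 0) (h0 : 15 * c * r + d = 0) : II r = -p := by
  have hc' : (c : ℝ) ≠ 0 := by exact_mod_cast hc
  have := mob_II_pole (A := a) (B := b) (C := 15 * c) (D := d) (ε := 1) (p := p)
    (by exact_mod_cast (by rw [hdet]; norm_num : (0 : ℤ) < a * d - b * (15 * c)))
    (fun z hz => by
      have := hp z hz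
      push_cast
      rw [one_mul]
      exact this) r (by positivity) (by exact_mod_cast h0)
  linear_combination this

end gamma

/-- the cocycle relation -/
theorem II_aff {a b c d : ℤ} (hdet : a * d - b * (15 * c) = 1) (r : ℚ)
    (h0 : 15 * c * r + d ≠ 0) :
    II ((a * r + b) / (15 * c * r + d)) = II r + II ((b : ℚ) / d) - II 0 := by
  obtain ⟨p, hp⟩ := F_gamma hdet
  have hd : (d : ℚ) ≠ 0 := by
    intro h
    have h1 : d = 0 := by exact_mod_cast h
    rw [h1] at hdet
    have : (15 : ℤ) ∣ 1 := ⟨-(b * c), by linarith⟩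
    norm_num at this
  have h1 := II_gamma hdet hp r h0
  have h2 := II_gamma hdet hp 0 (by simpa using hd)
  rw [mul_zero, mul_zero, zero_add, zero_add] at h2
  rw [h1, h2]
  ring

end Pool.Agent.N974.MF
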