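import Pool.Agent.N974.MF.Asm

/-!
Limits of the primitive at the rational points along horocycles, and the action of the group on
the integrals.
-/

set_option autoImplicit false

open Filter Topology MeasureTheory Set

namespace Pool.Agent.N974.MF

open Pool.Agent.W97.TW
open Pool.Agent.W97.MT (qq tt tt_ne qq_ne tt_pow norm_qq norm_qq_lt im_mul z_ne H_open
  QV iI iI_pos eq_or_eq_neg tpi_ne hasDerivAt_qq const_of_deriv line_im line_re)

/-- the horocycles at a real point -/
noncomputable def Hor (r : ℂ) : Filter ℂ := comap (fun z : ℂ => z.im / Complex.normSq (z - r)) atTop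

lemma line_hor (r : ℂ) (hr : r.im = 0) :
    Tendsto (fun t : ℝ => r + t * Complex.I) (𝓝[>] 0) (Hor r) := by
  unfold Hor
  rw [tendsto_comap_iff]
  refine tendsto_inv_nhdsGT_zero.congr' ?_
  filter_upwards [self_mem_nhdsWithin] with t ht
  have ht0 : (0 : ℝ) < t := ht
  have e : Complex.normSq (r + t * Complex.I - r) = t * t := by
    rw [add_sub_cancel_left, Complex.normSq_apply]; simp
  simp only [Function.comp_apply]
  rw [e]
  have e2 : (r + t * Complex.I).im = t := by simp [hr]
  rw [e2]
  field_simp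

lemma hor_neBot (r : ℂ) (hr : r.im = 0) : (Hor r).NeBot := (line_hor r hr).neBot

lemma hor_gt (r : ℂ) (T : ℝ) : ∀ᶠ z in Hor r, T < z.im / Complex.normSq (z - r) :=
  tendsto_comap.eventually (eventually_gt_atTop T)

lemma hor_pos (r : ℂ) : ∀ᶠ z in Hor r, 0 < z.im := by
  filter_upwards [hor_gt r 0] with z hz
  by_contra h
  push Not at h
  exact absurd hz (not_lt.2 (div_nonpos_of_nonpos_of_nonneg h (Complex.normSq_nonneg _)))

lemma ne_of_im {z r : ℂ} (hr : r.im = 0) (hz : 0 < z.im) : z - r ≠ 0 := by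
  intro h
  have := congrArg Complex.im h
  rw [Complex.sub_im, hr, Complex.zero_im] at this
  linarith

section hit

variable {m j : ℂ → ℂ} (h : IsMap m j) {r : ℂ}
include h

/-- the explicit form of the map to a rational point -/
lemma hit_eq (hr : r.im = 0) {a b c d : ℤ} (hdet : a * d - b * (15 * c) = 1)
    {K x : ℝ} (hK : 0 < K) (he : ∀ s : ℝ, 0 < s →
    (a * m (x + s * Complex.I) + b) / (15 * c * m (x + s * Complex.I) + d) =
      r + ((K * s)⁻¹ : ℝ) * Complex.I) (w : ℂ) (hw : 0 < w.im) :
    (a * m w + b) / (15 * c * m w + d) = r - 1 / (K * (w - x)) := by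
  have hKc : (K : ℂ) ≠ 0 := by exact_mod_cast hK.ne'
  have a1 : AnalyticOnNhd ℂ (fun w : ℂ => (a * m w + b) / (15 * c * m w + d))
      {z : ℂ | 0 < z.im} := by
    have h1 : DifferentiableOn ℂ (fun w : ℂ => (a * m w + b) / (15 * c * m w + d))
        {z : ℂ | 0 < z.im} := fun w hw => by
      have h3 := (hasDerivAt_gamma hdet (h.pos w hw)).comp w (h.der w hw)
      exact h3.differentiableAt.differentiableWithinAt
    exact h1.analyticOnNhd H_open
  have a2 : AnalyticOnNhd ℂ (fun w : ℂ => r - 1 / (K * (w - x))) {z : ℂ | 0 < z.im} := by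
    have h1 : DifferentiableOn ℂ (fun w : ℂ => r - 1 / (K * (w - x))) {z : ℂ | 0 < z.im} := by
      intro w hw
      have hne : (K : ℂ) * (w - x) ≠ 0 := mul_ne_zero hKc (ne_of_im (by simp) hw)
      have : DifferentiableAt ℂ (fun w : ℂ => r - 1 / (K * (w - x))) w := by
        have h2 : DifferentiableAt ℂ (fun w : ℂ => (K : ℂ) * (w - x)) w := by fun_prop
        exact DifferentiableAt.const_sub (DifferentiableAt.div (differentiableAt_const _) h2 hne) r
      exact this.differentiableWithinAt
    exact h1.analyticOnNhd H_open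
  have hpre : IsPreconnected {z : ℂ | 0 < z.im} := (convex_halfSpace_im_gt 0).isPreconnected
  have h0 : ((x : ℂ) + Complex.I) ∈ {z : ℂ | 0 < z.im} := by simp
  refine a1.eqOn_of_preconnected_of_frequently_eq a2 hpre h0 ?_ hw
  -- the points of the vertical line
  have ht : Tendsto (fun t : ℝ => (x : ℂ) + ((1 + t : ℝ) : ℂ) * Complex.I) (𝓝[>] 0)
      (𝓝[≠] ((x : ℂ) + Complex.I)) := by
    refine tendsto_nhdsWithin_iff.2 ⟨?_, ?_⟩
    · have : Continuous (fun t : ℝ => (x : ℂ) + ((1 + t : ℝ) : ℂ) * Complex.I) := by fun_prop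
      have h1 := this.tendsto 0
      simp only [add_zero, Complex.ofReal_one, one_mul] at h1
      exact h1.mono_left nhdsWithin_le_nhds
    · filter_upwards [self_mem_nhdsWithin] with t ht
      have ht0 : (0 : ℝ) < t := ht
      intro h1
      have h2 := congrArg Complex.im h1
      simp at h2
      exact ht0.ne' h2
  refine ht.frequently ?_
  refine Eventually.frequently ?_
  filter_upwards [self_mem_nhdsWithin] with t ht
  have ht0 : (0 : ℝ) < t := ht
  have h1 := he (1 + t) (by linarith)
  change (a * m ((x : ℂ) + ((1 + t : ℝ) : ℂ) * Complex.I) + b) /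
    (15 * c * m ((x : ℂ) + ((1 + t : ℝ) : ℂ) * Complex.I) + d) = _
  rw [h1]
  have h2 : ((1 + t : ℝ) : ℂ) ≠ 0 := by exact_mod_cast (by linarith : (1 + t : ℝ) ≠ 0)
  have h3 : (x : ℂ) + ((1 + t : ℝ) : ℂ) * Complex.I - x = ((1 + t : ℝ) : ℂ) * Complex.I := by ring
  rw [h3, Complex.ofReal_inv, Complex.ofReal_mul]
  have hI := Complex.I_ne_zero
  have hI2 := Complex.I_sq
  field_simp
  linear_combination hI2

lemma hit_hor {C : ℂ} (hC : Tendsto (fun z => F (m z)) iI (𝓝 C))
    (hr : r.im = 0) (hit : Hit r m) :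
    Tendsto F (Hor r) (𝓝 (2 * Real.pi * ∫ t in Ioi (0 : ℝ), ff (r + t * Complex.I))) := by
  have hint := (hit_prim h hC hr hit).1
  obtain ⟨a, b, c, d, hdet, K, x, hK, he⟩ := hit
  obtain ⟨p, hp⟩ := F_gamma hdet
  have hKc : (K : ℂ) ≠ 0 := by exact_mod_cast hK.ne'
  -- the inverse map
  set W : ℂ → ℂ := fun z => x - 1 / (K * (z - r)) with hW
  have hWim : ∀ z : ℂ, (W z).im = K⁻¹ * (z.im / Complex.normSq (z - r)) := by
    intro z
    have e0 : (1 / ((K : ℂ) * (z - r))).im = -(K⁻¹ * (z.im / Complex.normSq (z - r))) := by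
      have e1 : 1 / ((K : ℂ) * (z - r)) = ((K⁻¹ : ℝ) : ℂ) * (z - r)⁻¹ := by
        push_cast
        rw [one_div, mul_inv]
      rw [e1, Complex.im_ofReal_mul, Complex.inv_im, Complex.sub_im, hr, sub_zero]
      ring
    simp only [hW, Complex.sub_im, Complex.ofReal_im, e0]
    ring
  have hWt : Tendsto W (Hor r) iI := by
    unfold iI
    rw [tendsto_comap_iff]
    have e : Complex.im ∘ W = fun z => K⁻¹ * (z.im / Complex.normSq (z - r)) := by
      ext z; exact hWim z
    rw [e]
    exact (tendsto_comap).const_mul_atTop (inv_pos.2 hK)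
  have key : ∀ᶠ z in Hor r, F z = F (m (W z)) + p := by
    filter_upwards [hor_gt r 0, hor_pos r] with z hz hz'
    have hw : 0 < (W z).im := by rw [hWim]; positivity
    have h1 := hit_eq h hr hdet hK he (W z) hw
    have h2 : r - 1 / ((K : ℂ) * (W z - x)) = z := by
      have h3 := ne_of_im hr hz'
      simp only [hW]
      have h4 : (x : ℂ) - 1 / (K * (z - r)) - x = -(1 / (K * (z - r))) := by ring
      rw [h4]
      field_simp
      ring
    rw [h2] at h1
    have h3 := hp _ (h.pos _ hw)
    rw [h1] at h3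
    exact h3
  have hlim : Tendsto F (Hor r) (𝓝 (C + p)) :=
    ((hC.comp hWt).add_const p).congr' (key.mono fun z hz => hz.symm)
  have h1 := integral_line r hr.ge hint (hlim.comp (line_hor r hr))
  rw [h1]
  exact hlim

end hit

/-- the primitive tends to the integral along horocycles -/
theorem F_hor (r : ℚ) : Tendsto F (Hor (r : ℂ)) (𝓝 (II r)) := by
  obtain ⟨C15, l15⟩ := exists_limit isCusp15.map
  obtain ⟨C5, l5⟩ := exists_limit isCusp5.map
  obtain ⟨C3, l3⟩ := exists_limit cusp3.map
  rcases exists_hit r with h | h | h | h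
  · exact hit_hor isCusp15.map l15 (by simp) h
  · exact hit_hor isCusp5.map l5 (by simp) h
  · exact hit_hor cusp3.map l3 (by simp) h
  · exact hit_hor idMap F_QV.tendsto (by simp) h

end Pool.Agent.N974.MF
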