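import Pool.Agent.N974.MF.Hit
import Pool.Agent.W97.MT.Rat

/-!
The classification of the rational points, level 15.
-/

set_option autoImplicit false

open Filter Topology MeasureTheory Set

namespace Pool.Agent.N974.MF

open Pool.Agent.W97.TW
open Pool.Agent.W97.MT (inv_I im_aux isCoprime_num_den rat_cast isCoprime_prime)

lemma hit15 {a c w y : ℤ} (hc : 0 < c) (h : 15 * a * w - c * y = 1) : Hit ((a : ℂ) / c) m15 := by
  refine ⟨-y, a, -w, c, by linarith, 15 * (c : ℝ) ^ 2, -w / c, by positivity, fun s hs => ?_⟩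
  have hs' : (s : ℂ) ≠ 0 := by exact_mod_cast hs.ne'
  have hc' : (c : ℂ) ≠ 0 := by exact_mod_cast hc.ne'
  have h' : (15 : ℂ) * a * w - c * y = 1 := by exact_mod_cast h
  rw [inv_I _ _ hs.ne']
  have hz : 0 < (-(w : ℂ) / c + s * Complex.I).im := by
    have : -(w : ℂ) / c = ((-w / c : ℝ) : ℂ) := by push_cast; ring
    rw [this]; simpa using hs
  have hz0 : (-(w : ℂ) / c + s * Complex.I) ≠ 0 := fun h0 => by rw [h0] at hz; simp at hz
  have hu : (s : ℂ) * Complex.I ≠ 0 := mul_ne_zero hs' Complex.I_ne_zero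
  unfold m15
  push_cast
  set u : ℂ := (s : ℂ) * Complex.I with hu'
  have hz1 : -(w : ℂ) + c * u ≠ 0 := by
    intro h0
    apply hz0
    field_simp
    linear_combination h0
  have e1 : (15 : ℂ) * -w * (-1 / (15 * (-(w : ℂ) / c + u))) + c = c * c * u / (-(w : ℂ) + c * u) := by
    field_simp
    ring
  have e2 : -(y : ℂ) * (-1 / (15 * (-(w : ℂ) / c + u))) + a = (c * y + 15 * a * (-w + c * u)) /
      (15 * (-(w : ℂ) + c * u)) := by
    field_simp
  rw [e1, e2]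
  field_simp
  linear_combination -h'

lemma hit5 {a c w y : ℤ} (hc : 0 < c) (h : 5 * a * w - 3 * c * y = 1) :
    Hit ((a : ℂ) / (3 * c)) m5 := by
  refine ⟨-5 * a - 3 * y, y + 2 * a, -c - w, 5 * w + 6 * c, by linarith, 45 * (c : ℝ) ^ 2,
    -w / (3 * c), by positivity, fun s hs => ?_⟩
  have hs' : (s : ℂ) ≠ 0 := by exact_mod_cast hs.ne'
  have hc' : (c : ℂ) ≠ 0 := by exact_mod_cast hc.ne'
  have h' : (5 : ℂ) * a * w - 3 * c * y = 1 := by exact_mod_cast h
  rw [inv_I _ _ hs.ne']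
  have hz : 0 < (((-w / (3 * c) : ℝ) : ℂ) + s * Complex.I).im := by rw [im_aux]; exact hs
  have hz0 := w5_aux hz
  have hu : (s : ℂ) * Complex.I ≠ 0 := mul_ne_zero hs' Complex.I_ne_zero
  unfold m5
  push_cast at hz0 ⊢
  set u : ℂ := (s : ℂ) * Complex.I with hu'
  obtain ⟨D, hD⟩ : ∃ D : ℂ, D = -(w : ℂ) - c + 3 * c * u := ⟨_, rfl⟩
  have hDne : D ≠ 0 := by
    intro h0
    apply hz0
    have : 3 * (-(w : ℂ) / (3 * c) + u) - 1 = D / c := by
      rw [hD]; field_simp; ring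
    rw [this, h0, zero_div]
  have e0 : (5 * (-(w : ℂ) / (3 * c) + u) - 2) / (15 * (-(w : ℂ) / (3 * c) + u) - 5) =
      (5 * D - c) / (15 * D) := by
    have h1 : (15 * (-(w : ℂ) / (3 * c) + u) - 5) = 5 * D / c := by
      rw [hD]; field_simp; ring
    have h2 : (5 * (-(w : ℂ) / (3 * c) + u) - 2) = (5 * D - c) / (3 * c) := by
      rw [hD]; field_simp; ring
    rw [h1, h2]
    field_simp
    ring
  rw [e0]
  have e1 : 15 * (-(c : ℂ) - w) * ((5 * D - c) / (15 * D)) + (5 * w + 6 * c) = 3 * c * c * u / D := by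
    field_simp
    rw [hD]
    ring
  have e2 : (-5 * (a : ℂ) - 3 * y) * ((5 * D - c) / (15 * D)) + (y + 2 * a) =
      (15 * a * c * u - 1) / (15 * D) := by
    field_simp
    rw [hD]
    linear_combination (-1 : ℂ) * h'
  rw [e1, e2]
  field_simp
  ring

lemma hit3 {a c w y : ℤ} (hc : 0 < c) (h : 3 * a * w - 5 * c * y = 1) :
    Hit ((a : ℂ) / (5 * c)) m3 := by
  refine ⟨6 * a - 5 * y, y - a, 2 * c - w, 3 * w - 5 * c, by linarith, 75 * (c : ℝ) ^ 2,
    -w / (5 * c), by positivity, fun s hs => ?_⟩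
  have hs' : (s : ℂ) ≠ 0 := by exact_mod_cast hs.ne'
  have hc' : (c : ℂ) ≠ 0 := by exact_mod_cast hc.ne'
  have h' : (3 : ℂ) * a * w - 5 * c * y = 1 := by exact_mod_cast h
  rw [inv_I _ _ hs.ne']
  have hz : 0 < (((-w / (5 * c) : ℝ) : ℂ) + s * Complex.I).im := by rw [im_aux]; exact hs
  have hz0 := w3_aux hz
  have hu : (s : ℂ) * Complex.I ≠ 0 := mul_ne_zero hs' Complex.I_ne_zero
  unfold m3
  push_cast at hz0 ⊢
  set u : ℂ := (s : ℂ) * Complex.I with hu'
  obtain ⟨D, hD⟩ : ∃ D : ℂ, D = -(w : ℂ) + 2 * c + 5 * c * u := ⟨_, rfl⟩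
  have hDne : D ≠ 0 := by
    intro h0
    apply hz0
    have : 5 * (-(w : ℂ) / (5 * c) + u) + 2 = D / c := by
      rw [hD]; field_simp; ring
    rw [this, h0, zero_div]
  have e0 : (3 * (-(w : ℂ) / (5 * c) + u) + 1) / (15 * (-(w : ℂ) / (5 * c) + u) + 6) =
      (3 * D - c) / (15 * D) := by
    have h1 : (15 * (-(w : ℂ) / (5 * c) + u) + 6) = 3 * D / c := by
      rw [hD]; field_simp; ring
    have h2 : (3 * (-(w : ℂ) / (5 * c) + u) + 1) = (3 * D - c) / (5 * c) := by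
      rw [hD]; field_simp; ring
    rw [h1, h2]
    field_simp
    ring
  rw [e0]
  have e1 : 15 * (2 * (c : ℂ) - w) * ((3 * D - c) / (15 * D)) + (3 * w - 5 * c) =
      5 * c * c * u / D := by
    field_simp
    rw [hD]
    ring
  have e2 : (6 * (a : ℂ) - 5 * y) * ((3 * D - c) / (15 * D)) + (y - a) =
      (15 * a * c * u - 1) / (15 * D) := by
    field_simp
    rw [hD]
    linear_combination (-1 : ℂ) * h'
  rw [e1, e2]
  field_simp
  ring

lemma hit1 {a c w y : ℤ} (hc : 0 < c) (h : a * w - 15 * c * y = 1) :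
    Hit ((a : ℂ) / (15 * c)) (fun z => z) := by
  refine ⟨a, y, c, w, by linarith, 225 * (c : ℝ) ^ 2, -w / (15 * c), by positivity, fun s hs => ?_⟩
  have hs' : (s : ℂ) ≠ 0 := by exact_mod_cast hs.ne'
  have hc' : (c : ℂ) ≠ 0 := by exact_mod_cast hc.ne'
  have h' : (a : ℂ) * w - 15 * c * y = 1 := by exact_mod_cast h
  rw [inv_I _ _ hs.ne']
  have hu : (s : ℂ) * Complex.I ≠ 0 := mul_ne_zero hs' Complex.I_ne_zero
  push_cast
  set u : ℂ := (s : ℂ) * Complex.I with hu'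
  have e1 : 15 * (c : ℂ) * (-w / (15 * c) + u) + w = 15 * c * u := by
    field_simp
    ring
  rw [e1]
  field_simp
  linear_combination (-225 : ℂ) * h'

theorem exists_hit_coprime (r : ℚ) (h3 : ¬ (3 : ℤ) ∣ r.den) (h5 : ¬ (5 : ℤ) ∣ r.den) :
    Hit (r : ℂ) m15 := by
  have h : IsCoprime (15 * r.num) (r.den : ℤ) := by
    rw [show (15 : ℤ) * r.num = 3 * (5 * r.num) by ring]
    exact (isCoprime_prime (Nat.prime_iff_prime_int.1 (by norm_num : Nat.Prime 3))
      h3).mul_left ((isCoprime_prime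
      (Nat.prime_iff_prime_int.1 (by norm_num : Nat.Prime 5)) h5).mul_left (isCoprime_num_den r))
  obtain ⟨u, v, huv⟩ := h
  rw [rat_cast]
  have := hit15 (a := r.num) (c := r.den) (w := u) (y := -v) (by exact_mod_cast r.den_pos)
    (by linarith)
  exact_mod_cast this

theorem exists_hit_three (r : ℚ) (h3 : (3 : ℤ) ∣ r.den) (h5 : ¬ (5 : ℤ) ∣ r.den) :
    Hit (r : ℂ) m5 := by
  have hd := r.den_pos
  have p5 : Prime (5 : ℤ) := Nat.prime_iff_prime_int.1 (by norm_num : Nat.Prime 5)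
  have hr := isCoprime_num_den r
  obtain ⟨c, hc⟩ := h3
  have hc0 : 0 < c := by
    have : (0 : ℤ) < r.den := by exact_mod_cast hd
    omega
  have h : IsCoprime (5 * r.num) (r.den : ℤ) := (isCoprime_prime p5 h5).mul_left hr
  rw [hc] at h
  obtain ⟨u, v, huv⟩ := h
  have := hit5 (a := r.num) (c := c) (w := u) (y := -v) hc0 (by linarith)
  rw [rat_cast]
  have e : (r.den : ℂ) = 3 * c := by exact_mod_cast hc
  rwa [e]

theorem exists_hit_five (r : ℚ) (h3 : ¬ (3 : ℤ) ∣ r.den) (h5 : (5 : ℤ) ∣ r.den) :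
    Hit (r : ℂ) m3 := by
  have hd := r.den_pos
  have p3 : Prime (3 : ℤ) := Nat.prime_iff_prime_int.1 (by norm_num : Nat.Prime 3)
  have hr := isCoprime_num_den r
  obtain ⟨c, hc⟩ := h5
  have hc0 : 0 < c := by
    have : (0 : ℤ) < r.den := by exact_mod_cast hd
    omega
  have h : IsCoprime (3 * r.num) (r.den : ℤ) := (isCoprime_prime p3 h3).mul_left hr
  rw [hc] at h
  obtain ⟨u, v, huv⟩ := h
  have := hit3 (a := r.num) (c := c) (w := u) (y := -v) hc0 (by linarith)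
  rw [rat_cast]
  have e : (r.den : ℂ) = 5 * c := by exact_mod_cast hc
  rwa [e]

theorem exists_hit_inf (r : ℚ) (h3 : (3 : ℤ) ∣ r.den) (h5 : (5 : ℤ) ∣ r.den) :
    Hit (r : ℂ) (fun z => z) := by
  have hd := r.den_pos
  have hr := isCoprime_num_den r
  have h15 : (15 : ℤ) ∣ r.den := by omega
  obtain ⟨c, hc⟩ := h15
  have hc0 : 0 < c := by
    have : (0 : ℤ) < r.den := by exact_mod_cast hd
    omega
  rw [hc] at hr
  obtain ⟨u, v, huv⟩ := hr
  have := hit1 (a := r.num) (c := c) (w := u) (y := -v) hc0 (by linarith)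
  rw [rat_cast]
  have e : (r.den : ℂ) = 15 * c := by exact_mod_cast hc
  rwa [e]

theorem exists_hit (r : ℚ) : Hit (r : ℂ) m15 ∨ Hit (r : ℂ) m5 ∨ Hit (r : ℂ) m3 ∨
    Hit (r : ℂ) (fun z => z) := by
  by_cases h3 : (3 : ℤ) ∣ r.den
  · by_cases h5 : (5 : ℤ) ∣ r.den
    · exact Or.inr (Or.inr (Or.inr (exists_hit_inf r h3 h5)))
    · exact Or.inr (Or.inl (exists_hit_three r h3 h5))
  · by_cases h5 : (5 : ℤ) ∣ r.den
    · exact Or.inr (Or.inr (Or.inl (exists_hit_five r h3 h5)))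
    · exact Or.inl (exists_hit_coprime r h3 h5)

end Pool.Agent.N974.MF
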